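import Pool.Agent.ShghH.HodgeA

/-!
# Inequalities for the unfolding data
-/

namespace ShghH

/-- The inequality for `K · D ≤ 0`. `G` a set of `9 - r` of the points, `r ≥ 1`, `y_i` (`i ∈ J`, `|J| = r`) nonnegative, `a ≥ 0`, `|τ| ≤ a`,
`b = 3 d - Σ_G m_i = a - Σ_J y`, `d² - Σ_G m² = q + Σ_J y² + τ²`, `κ² ≤ 8 q`, and either `κ = a + τ`, `τ ≥ 0`, or `κ ≥ 3 a + τ`. Then
`2 Σ_J y + |τ| ≤ a`.

Proof. `canon_ineq`: `r (d² - Σ_G m²) ≤ b²`; `r Σ_J y² ≥ (Σ_J y)² = : Y_J²`. So `Y_J² + r τ² + r κ² / 8 ≤ (a - Y_J)²`, that is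
`2 a Y_J ≤ a² - r (τ² + κ² / 8) ≤ a² - (τ² + κ² / 8)`. Now `a |τ| ≤ τ² + κ² / 8`: if `κ = a + τ`, `τ ≥ 0`:
`8 τ² + (a + τ)² - 8 a τ = (3 τ - a)² ≥ 0`; if `κ ≥ 3 a + τ ≥ 2 a`: for `τ ≥ 0`, `8 τ² + 9 a² - 8 a τ ≥ 0`, for `τ < 0`: `8 τ² + (3 a + τ)² + 8 a τ = 9 τ² + 14 a τ + 9 a² ≥ 0`
(discriminant `196 - 324 < 0`). So `2 a Y_J + a |τ| ≤ a²`; divide by `a > 0`; if `a = 0` then `τ = 0` and
`r (d² - Σ_G m²) ≤ b² = Y_J²` gives `r q ≤ 0`..., in this case `κ² ≤ 8 q` and the inequality `Y_J² + r τ² + r κ² / 8 ≤ Y_J²` is no contradiction, so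
`a > 0` is assumed. -/
theorem kineq (G J : Finset (Fin 10)) (hcard : G.card + J.card = 9) (hJ : 1 ≤ J.card) (d : ℝ)
    (m : Fin 10 → ℝ) (a τ κ : ℝ) (ha : 0 < a) (hτ : |τ| ≤ a)
    (hb : 3 * d - ∑ i ∈ G, m i = a - ∑ i ∈ J, m i)
    (hq : κ ^ 2 ≤ 8 * (d ^ 2 - ∑ i ∈ G, m i ^ 2 - ∑ i ∈ J, m i ^ 2 - τ ^ 2))
    (hκ : (κ = a + τ ∧ 0 ≤ τ) ∨ 3 * a + τ ≤ κ) : 2 * ∑ i ∈ J, m i + |τ| ≤ a := by
  have hG : G.card ≤ 9 := by omega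
  have h1 := canon_ineq G d m hG (a - ∑ i ∈ J, m i) hb.symm
  have hr : (9 : ℝ) - (G.card : ℝ) = (J.card : ℝ) := by
    have h2 : ((G.card + J.card : ℕ) : ℝ) = ((9 : ℕ) : ℝ) := by rw [hcard]
    push_cast at h2
    linarith
  rw [hr] at h1
  have hr1 : (1 : ℝ) ≤ (J.card : ℝ) := by exact_mod_cast hJ
  have h3 : (∑ i ∈ J, m i) ^ 2 ≤ (J.card : ℝ) * ∑ i ∈ J, m i ^ 2 := sq_sum_le_card_mul_sum_sq
  generalize ∑ i ∈ J, m i = Y at *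
  generalize ∑ i ∈ J, m i ^ 2 = Z at *
  generalize ∑ i ∈ G, m i ^ 2 = W at *
  generalize (J.card : ℝ) = r at *
  -- the main inequality
  have h4 : 8 * (2 * a * Y) ≤ 8 * a ^ 2 - (8 * τ ^ 2 + κ ^ 2) := by
    have h5 : r * κ ^ 2 ≤ r * (8 * (d ^ 2 - W - Z - τ ^ 2)) :=
      mul_le_mul_of_nonneg_left hq (by linarith)
    have h6 : 8 * τ ^ 2 + κ ^ 2 ≤ r * (8 * τ ^ 2 + κ ^ 2) := by
      nlinarith [sq_nonneg τ, sq_nonneg κ]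
    nlinarith
  have h7 : 8 * (a * |τ|) ≤ 8 * τ ^ 2 + κ ^ 2 := by
    rcases hκ with ⟨h8, h9⟩ | h8
    · rw [abs_of_nonneg h9, h8]
      nlinarith [sq_nonneg (3 * τ - a)]
    · have h9 : 0 ≤ 3 * a + τ := by
        have := (abs_le.mp hτ).1
        linarith
      have h10 : (3 * a + τ) ^ 2 ≤ κ ^ 2 := pow_le_pow_left₀ h9 h8 2
      rcases le_or_gt 0 τ with h11 | h11
      · rw [abs_of_nonneg h11]
        nlinarith [sq_nonneg (2 * τ - a), sq_nonneg τ, mul_nonneg ha.le h11]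
      · rw [abs_of_neg h11]
        nlinarith [sq_nonneg (9 * τ + 7 * a), sq_nonneg a]
  have h12 : a * (2 * Y + |τ|) ≤ a * a := by nlinarith
  exact le_of_mul_le_mul_left h12 ha

/-- The pair condition. If `u > d ≥ 0`, `b = 3 d - u` and `b² ≤ 8 (d² - u² / 2)` then contradiction:
`9 d² - 6 d u + u² ≤ 8 d² - 4 u²` gives `(d - u)(d - 5 u) ≤ 0`, so `u ≤ d`. -/
theorem pair_ineq (d u : ℝ) (hd : 0 ≤ d) (h : (3 * d - u) ^ 2 ≤ 8 * (d ^ 2 - u ^ 2 / 2)) : u ≤ d := by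
  by_contra hu
  rw [not_le] at hu
  have h1 : 0 < (u - d) * (5 * u - d) := mul_pos (by linarith) (by linarith)
  nlinarith

end ShghH
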