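import Mathlib

/-!
# Standard classes
-/

namespace ShghH

variable {ι : Type*} (G : Finset ι)

/-- A standard class is nonnegative on all `(a; ν)` with `0 ≤ ν_i ≤ a`, `Σ ν_i ≤ 3 a`. Proof: let `M₁ ≥ M₂ ≥ M₃` be
the three largest values of `m` on `G` (if `G` has fewer than three elements, fewer values; then argue in the same way with
`M₃ = 0`, `M₂ = 0`): `Σ m ν ≤ M₃ Σ ν + (M₁ - M₃) ν_{i₁} + (M₂ - M₃) ν_{i₂} ≤ 3 a M₃ + a (M₁ - M₃) + a (M₂ - M₃) = a (M₁ + M₂ + M₃) ≤ a d`.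
(Choose `i₁`, `i₂`, `i₃` by `Finset.exists_max_image` on `G`, `G \ {i₁}`, `G \ {i₁, i₂}`.) -/
theorem std_nonneg [DecidableEq ι] (d a : ℝ) (m ν : ι → ℝ) (hd : 0 ≤ d) (ha : 0 ≤ a)
    (hm : ∀ i ∈ G, 0 ≤ m i)
    (h1 : ∀ i ∈ G, m i ≤ d) (h2 : ∀ i ∈ G, ∀ j ∈ G, i ≠ j → m i + m j ≤ d)
    (h3 : ∀ i ∈ G, ∀ j ∈ G, ∀ l ∈ G, i ≠ j → i ≠ l → j ≠ l → m i + m j + m l ≤ d)
    (hν : ∀ i ∈ G, 0 ≤ ν i) (hνa : ∀ i ∈ G, ν i ≤ a) (hs : ∑ i ∈ G, ν i ≤ 3 * a) :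
    ∑ i ∈ G, m i * ν i ≤ d * a := by
  rcases G.eq_empty_or_nonempty with rfl | hG
  · simpa using mul_nonneg hd ha
  obtain ⟨i₁, hi₁, hmax₁⟩ := Finset.exists_max_image G m hG
  have e1 : ∀ f : ι → ℝ, ∑ i ∈ G, f i = f i₁ + ∑ i ∈ G.erase i₁, f i := fun f =>
    (Finset.add_sum_erase G f hi₁).symm
  rcases (G.erase i₁).eq_empty_or_nonempty with h0 | hG1
  · rw [e1, h0, Finset.sum_empty, add_zero]
    exact mul_le_mul (h1 i₁ hi₁) (hνa i₁ hi₁) (hν i₁ hi₁) hd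
  obtain ⟨i₂, hi₂, hmax₂⟩ := Finset.exists_max_image (G.erase i₁) m hG1
  obtain ⟨hne12, hi₂G⟩ := Finset.mem_erase.1 hi₂
  have e2 : ∀ f : ι → ℝ, ∑ i ∈ G.erase i₁, f i = f i₂ + ∑ i ∈ (G.erase i₁).erase i₂, f i := fun f =>
    (Finset.add_sum_erase (G.erase i₁) f hi₂).symm
  have a1 : m i₁ * ν i₁ ≤ m i₁ * a := mul_le_mul_of_nonneg_left (hνa i₁ hi₁) (hm i₁ hi₁)
  have a2 : m i₂ * ν i₂ ≤ m i₂ * a := mul_le_mul_of_nonneg_left (hνa i₂ hi₂G) (hm i₂ hi₂G)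
  rcases ((G.erase i₁).erase i₂).eq_empty_or_nonempty with h0 | hG2
  · rw [e1, e2, h0, Finset.sum_empty, add_zero]
    have := mul_le_mul_of_nonneg_right (h2 i₁ hi₁ i₂ hi₂G (Ne.symm hne12)) ha
    nlinarith
  obtain ⟨i₃, hi₃, hmax₃⟩ := Finset.exists_max_image ((G.erase i₁).erase i₂) m hG2
  obtain ⟨hne23, hi₃'⟩ := Finset.mem_erase.1 hi₃
  obtain ⟨hne13, hi₃G⟩ := Finset.mem_erase.1 hi₃'
  have a3 : ∑ i ∈ (G.erase i₁).erase i₂, m i * ν i ≤ m i₃ * ∑ i ∈ (G.erase i₁).erase i₂, ν i := by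
    rw [Finset.mul_sum]
    refine Finset.sum_le_sum fun i hi => ?_
    exact mul_le_mul_of_nonneg_right (hmax₃ i hi)
      (hν i (Finset.mem_of_mem_erase (Finset.mem_of_mem_erase hi)))
  have a4 : ν i₁ + (ν i₂ + ∑ i ∈ (G.erase i₁).erase i₂, ν i) ≤ 3 * a := by
    rw [← e2, ← e1]; exact hs
  have a5 : m i₃ * ∑ i ∈ (G.erase i₁).erase i₂, ν i ≤ m i₃ * (3 * a - ν i₁ - ν i₂) :=
    mul_le_mul_of_nonneg_left (by linarith) (hm i₃ hi₃G)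
  have b1 : (m i₁ - m i₃) * ν i₁ ≤ (m i₁ - m i₃) * a :=
    mul_le_mul_of_nonneg_left (hνa i₁ hi₁) (sub_nonneg.2 (hmax₁ i₃ hi₃G))
  have b2 : (m i₂ - m i₃) * ν i₂ ≤ (m i₂ - m i₃) * a :=
    mul_le_mul_of_nonneg_left (hνa i₂ hi₂G) (sub_nonneg.2 (hmax₂ i₃ hi₃'))
  have b3 := mul_le_mul_of_nonneg_right
    (h3 i₁ hi₁ i₂ hi₂G i₃ hi₃G (Ne.symm hne12) (Ne.symm hne13) (Ne.symm hne23)) ha
  rw [e1, e2]
  nlinarith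

end ShghH
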