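import Pool.Agent.ShghH.Defs
import Pool.Agent.ShghH.StdH

/-!
# The unfolding data, first case
-/

namespace ShghH

/-- **First case**: `K · N ≤ a`, `a = 3 d - Σ_{i<9} m_i`. The class `D = N + 2 κ K = (d - 6 κ; m_i - 2 κ)`, `κ = K · N = m_9 - a`, last multiplicity
`a - κ = 2 a - m_9` (`= m_9 - 2 κ`). It has nonnegative multiplicities (`m_i ≥ m_9 = a + κ ≥ 2 κ`), `K · D = - κ ≤ 0`, `D² = N² ≥ 0`, and for a
(-1)-class `(a'; ν)`: `D · L = N · L + 2 κ K · L = N · L - 2 κ`, `N · L = A · L + m_9 (3 a' - Σ ν) = A · L + m_9`, where `A = (d - 3 m_9; m_i - m_9 (i < 9), 0)`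
is standard on the first nine points, so `A · L ≥ 0` (`std_nonneg` with `G` = the first nine points), and `m_9 ≥ 2 κ`. -/
theorem data_one (d : ℝ) (m : Fin 10 → ℝ) (hm : ∀ i, 0 ≤ m i)
    (hstd : ∀ i j l, i ≠ j → i ≠ l → j ≠ l → m i + m j + m l ≤ d)
    (hlast : ∀ i, m (Fin.last 9) ≤ m i) (κ a : ℝ) (hκ : κ = ∑ i, m i - 3 * d) (hκ0 : 0 < κ)
    (ha : a = 3 * d - ∑ i : Fin 9, m i.castSucc) (hκa : κ ≤ a)
    (h8 : κ ^ 2 ≤ 8 * (d ^ 2 - ∑ i, m i ^ 2)) :
    (∀ i, 0 ≤ m i - 2 * κ) ∧ ∑ i, (m i - 2 * κ) ≤ 3 * (d - 6 * κ) ∧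
      ∑ i, (m i - 2 * κ) ^ 2 ≤ (d - 6 * κ) ^ 2 ∧
      ∀ (a' : ℕ) (ν : Fin 10 → ℕ), Neg1 a' ν → ∑ i, (m i - 2 * κ) * ν i ≤ (d - 6 * κ) * a' := by
  have hsum : ∑ i, m i = ∑ i : Fin 9, m i.castSucc + m (Fin.last 9) := Fin.sum_univ_castSucc m
  have hl : m (Fin.last 9) = κ + a := by rw [hκ, hsum, ha]; ring
  have hm2 : ∀ i, 2 * κ ≤ m i := fun i => by
    have := hlast i
    linarith
  refine ⟨fun i => by have := hm2 i; linarith, ?_, ?_, ?_⟩
  · rw [Finset.sum_sub_distrib, Finset.sum_const, Finset.card_univ, Fintype.card_fin,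
      nsmul_eq_mul]
    push_cast
    linarith
  · have h1 : ∑ i, (m i - 2 * κ) ^ 2 = ∑ i, m i ^ 2 - 4 * κ * ∑ i, m i + 40 * κ ^ 2 := by
      have h2 : ∀ i, (m i - 2 * κ) ^ 2 = m i ^ 2 - 4 * κ * m i + 4 * κ ^ 2 := fun i => by ring
      simp only [h2]
      rw [Finset.sum_add_distrib, Finset.sum_sub_distrib, ← Finset.mul_sum, Finset.sum_const,
        Finset.card_univ, Fintype.card_fin, nsmul_eq_mul]
      push_cast
      ring
    rw [h1]
    have h3 : ∑ i, m i = κ + 3 * d := by linarith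
    rw [h3]
    nlinarith [sq_nonneg κ]
  · rintro a' ν ⟨h1, h2⟩
    have ha' : 1 ≤ a' := by omega
    have hνa : ∀ i, ν i ≤ a' := by
      intro i
      by_contra hi
      rw [not_le] at hi
      have h3 : ν i ^ 2 ≤ ∑ i, ν i ^ 2 :=
        Finset.single_le_sum (f := fun i => ν i ^ 2) (fun _ _ => Nat.zero_le _)
          (Finset.mem_univ i)
      rw [h1] at h3
      have h4 : (a' + 1) ^ 2 ≤ ν i ^ 2 := Nat.pow_le_pow_left hi 2
      nlinarith
    have h2' : ∑ i, (ν i : ℝ) + 1 = 3 * (a' : ℝ) := by exact_mod_cast h2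
    have hsν : ∑ i, (ν i : ℝ) = ∑ i : Fin 9, (ν i.castSucc : ℝ) + (ν (Fin.last 9) : ℝ) :=
      Fin.sum_univ_castSucc fun i => (ν i : ℝ)
    have hν0 : (0 : ℝ) ≤ (ν (Fin.last 9) : ℝ) := Nat.cast_nonneg _
    have hne : ∀ i : Fin 9, i.castSucc ≠ Fin.last 9 := fun i => (Fin.castSucc_lt_last i).ne
    have h3m : 3 * m (Fin.last 9) ≤ d := by
      have e1 := hstd 0 1 2 (by decide) (by decide) (by decide)
      have e2 := hlast 0
      have e3 := hlast 1
      have e4 := hlast 2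
      linarith
    have hA := std_nonneg (Finset.univ : Finset (Fin 9)) (d - 3 * m (Fin.last 9)) (a' : ℝ)
      (fun i => m i.castSucc - m (Fin.last 9)) (fun i => (ν i.castSucc : ℝ)) (by linarith)
      (Nat.cast_nonneg _) (fun i _ => by have := hlast i.castSucc; linarith) ?_ ?_ ?_
      (fun i _ => Nat.cast_nonneg _) (fun i _ => by exact_mod_cast hνa i.castSucc) (by linarith)
    · have h5 : ∑ i, (m i - 2 * κ) * (ν i : ℝ) = ∑ i : Fin 9,
          (m i.castSucc - m (Fin.last 9)) * (ν i.castSucc : ℝ) +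
          (m (Fin.last 9) - 2 * κ) * ∑ i, (ν i : ℝ) := by
        rw [hsν, Fin.sum_univ_castSucc (fun i => (m i - 2 * κ) * (ν i : ℝ)), mul_add,
          ← add_assoc, Finset.mul_sum, ← Finset.sum_add_distrib]
        refine congrArg₂ (· + ·) (Finset.sum_congr rfl fun i _ => ?_) rfl
        ring
      rw [h5]
      have h6 : ∑ i, (ν i : ℝ) = 3 * (a' : ℝ) - 1 := by linarith
      rw [h6]
      nlinarith
    · intro i _
      obtain ⟨j, hj⟩ : ∃ j : Fin 9, i ≠ j := ⟨i + 1, by decide +revert⟩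
      have e1 := hstd i.castSucc j.castSucc (Fin.last 9)
        (fun h => hj (Fin.castSucc_injective 9 h)) (hne i) (hne j)
      have e2 := hlast j.castSucc
      linarith
    · intro i _ j _ hij
      have e1 := hstd i.castSucc j.castSucc (Fin.last 9)
        (fun h => hij (Fin.castSucc_injective 9 h)) (hne i) (hne j)
      linarith
    · intro i _ j _ l _ hij hil hjl
      have e1 := hstd i.castSucc j.castSucc l.castSucc
        (fun h => hij (Fin.castSucc_injective 9 h)) (fun h => hil (Fin.castSucc_injective 9 h))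
        (fun h => hjl (Fin.castSucc_injective 9 h))
      linarith

end ShghH
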