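import Pool.Agent.ShghH.PosH
import Pool.Agent.ShghH.DataA
import Pool.Agent.ShghM.StepM

/-!
# The unfolding data, second case
-/

namespace ShghH

open ShghM

theorem DataC_case (m : Fin 10 → ℝ) (κ a : ℝ) (ha0 : 0 < a) (hκa : a < κ)
    (hn : κ = m (Fin.last 9) - a) (j : ℕ) (hj : 1 ≤ j) (τ : ℝ)
    (hτ : τ = m (Fin.last 9) - 2 * j * a) (hτa : |τ| ≤ a) :
    ((κ = a + τ ∧ 0 ≤ τ) ∨ 3 * a + τ ≤ κ) ∧ a + |τ| ≤ κ := by
  rcases Nat.lt_or_ge 1 j with h | h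
  · have h2 : (2 : ℝ) ≤ j := by exact_mod_cast h
    have h3 : 3 * a + τ ≤ κ := by
      rw [hn, hτ]
      nlinarith
    refine ⟨Or.inr h3, ?_⟩
    rcases abs_cases τ with ⟨h4, _⟩ | ⟨h4, _⟩ <;> rw [h4] at hτa ⊢ <;> linarith
  · have h2 : j = 1 := le_antisymm h hj
    subst h2
    have h3 : κ = a + τ := by
      rw [hn, hτ]
      push_cast
      ring
    have h4 : 0 ≤ τ := by linarith
    refine ⟨Or.inl ⟨h3, h4⟩, ?_⟩
    rw [abs_of_nonneg h4, h3]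

theorem DataC_sumG (s : Finset (Fin 9)) (f : Fin 10 → ℝ) :
    ∑ i ∈ s.map Fin.castSuccEmb, f i = ∑ i ∈ s, f i.castSucc := by
  rw [Finset.sum_map]
  rfl

theorem DataC_compl (J : Finset (Fin 9)) :
    ((Jᶜ.map Fin.castSuccEmb)ᶜ : Finset (Fin 10)) =
      insert (Fin.last 9) (J.map Fin.castSuccEmb) := by
  ext x
  rw [Finset.mem_compl, Finset.mem_map, Finset.mem_insert, Finset.mem_map]
  constructor
  · intro h
    rcases Fin.eq_castSucc_or_eq_last x with ⟨y, rfl⟩ | rfl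
    · right
      refine ⟨y, ?_, rfl⟩
      by_contra hy
      exact h ⟨y, Finset.mem_compl.2 hy, rfl⟩
    · exact Or.inl rfl
  · rintro (rfl | ⟨y, hy, rfl⟩) ⟨z, hz, h⟩
    · exact (Fin.castSucc_lt_last z).ne h
    · rw [Finset.mem_compl] at hz
      exact hz (Fin.castSucc_injective 9 h ▸ hy)

/-- **Second case**: `K · N > a > 0`. Let `n = m_9 = a + κ > 2 a`, `j = ⌊(n + a) / (2 a)⌋ ≥ 1`, `τ = n - 2 j a ∈ [-a, a)`, `λ = 2 j (n - j a)`,
`J = {i < 9 | m_i < λ}`, `d' = d - 3 λ`, `m'_i = |m_i - λ|` (`i < 9`), `m'_9 = |τ|`. Claims: all `m'_i ≥ 0`; with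
`sgnm J m' i = m_i - λ`; `3 d' - Σ sgnm = a`; `d'² - Σ m'² = N²` (`n² - τ² = 2 a λ`); `Σ m' ≤ 3 d'`; nonnegative on (-1)-classes.

Proof. Let `G = {castSucc i | i ∉ J}`, so `Gᶜ = castSucc J ∪ {last}`. `b = 3 d' - Σ_G m' = a - Σ_J m'`. `κ = n - a = (2 j - 1) a + τ`: either `j = 1`,
`κ = a + τ`, `τ > 0` (since `n > 2 a`), or `j ≥ 2`, `κ ≥ 3 a + τ`. If `J` is empty then `Σ m' - 3 d' = |τ| - a ≤ 0`. Otherwise `kineq` (with
`castSucc J`) gives `2 Σ_J m' + |τ| ≤ a`, which is `Σ m' ≤ 3 d'`. Then `b ≥ 0`, `Y = Σ_J m' + |τ| ≤ b`, `b + Y = a + |τ| ≤ κ` (if `τ ≥ 0`: `κ ≥ a + τ`; if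
`τ < 0`: `j ≥ 2` and `κ ≥ 3 a + τ ≥ a - τ`), so `(b + Y)² ≤ κ² ≤ 8 N²`. `d' ≥ 0`: otherwise, as `D'² > 0`, `Σ_G m'² < d'²`, so
`Σ_G m' ≤ 3 |d'|` (Cauchy-Schwarz with `|G| ≤ 9`) — and `b = 3 d' - Σ_G m' < 0` since `m' ≥ 0`. (Simply: `0 ≤ b = 3 d' - Σ_G m' ≤ 3 d'`.)
Standard on `G`: triples from `hstd` (`m_i + m_j + m_l - 3 λ ≤ d - 3 λ`). If `|G| ≥ 3` the pair and single conditions follow (add a further
nonnegative multiplicity). If `|G| ≤ 2`: single: `m'_i² ≤ d'²` from `D'² ≥ 0`; pair `G = {i, j}`: `u = m'_i + m'_j`,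
`u² / 2 ≤ m'_i² + m'_j²`, `b² ≤ (b + Y)² ≤ 8 D'² ≤ 8 (d'² - m'_i² - m'_j²)`, `pair_ineq`. Now `neg1_nonneg`. -/
theorem data_two (d : ℝ) (m : Fin 10 → ℝ) (hm : ∀ i, 0 ≤ m i)
    (hstd : ∀ i j l, i ≠ j → i ≠ l → j ≠ l → m i + m j + m l ≤ d) (κ a : ℝ)
    (hκ : κ = ∑ i, m i - 3 * d) (ha : a = 3 * d - ∑ i : Fin 9, m i.castSucc) (ha0 : 0 < a)
    (hκa : a < κ) (h8 : κ ^ 2 ≤ 8 * (d ^ 2 - ∑ i, m i ^ 2)) (j : ℕ) (hj : 1 ≤ j) (τ lam : ℝ)
    (hτ : τ = m (Fin.last 9) - 2 * j * a) (hτa : |τ| ≤ a)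
    (hlam : lam = 2 * j * (m (Fin.last 9) - j * a)) (J : Finset (Fin 9))
    (hJ : ∀ i, i ∈ J ↔ m i.castSucc < lam) (m' : Fin 10 → ℝ)
    (hm' : ∀ i : Fin 9, m' i.castSucc = |m i.castSucc - lam|) (hm'9 : m' (Fin.last 9) = |τ|) :
    (∀ i : Fin 9, sgnm J m' i = m i.castSucc - lam) ∧ ∑ i, m' i ≤ 3 * (d - 3 * lam) ∧
      ∑ i, m' i ^ 2 ≤ (d - 3 * lam) ^ 2 ∧
      ∀ (a' : ℕ) (ν : Fin 10 → ℕ), Neg1 a' ν → ∑ i, m' i * ν i ≤ (d - 3 * lam) * a' := by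
  classical
  have _ := hm
  have hpos : ∀ i, 0 ≤ m' i := by
    intro i
    refine Fin.lastCases ?_ (fun i => ?_) i
    · rw [hm'9]
      exact abs_nonneg _
    · rw [hm']
      exact abs_nonneg _
  have hin : ∀ i ∈ J, m' i.castSucc = lam - m i.castSucc := by
    intro i hi
    rw [hm', abs_of_neg (sub_neg.2 ((hJ i).1 hi)), neg_sub]
  have hout : ∀ i, i ∉ J → m' i.castSucc = m i.castSucc - lam := by
    intro i hi
    rw [hm', abs_of_nonneg]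
    rw [hJ, not_lt] at hi
    linarith
  have hsg : ∀ i : Fin 9, sgnm J m' i = m i.castSucc - lam := by
    intro i
    unfold sgnm
    by_cases h : i ∈ J
    · rw [if_pos h, hin i h, neg_sub]
    · rw [if_neg h, hout i h]
  refine ⟨hsg, ?_⟩
  -- sums
  obtain ⟨n, hn⟩ : ∃ n, n = m (Fin.last 9) := ⟨_, rfl⟩
  obtain ⟨s1, hs1⟩ : ∃ s, s = ∑ i : Fin 9, m i.castSucc := ⟨_, rfl⟩
  obtain ⟨s2, hs2⟩ : ∃ s, s = ∑ i : Fin 9, m i.castSucc ^ 2 := ⟨_, rfl⟩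
  have hsplit : ∀ f : Fin 10 → ℝ, ∑ i, f i =
      ∑ i ∈ Jᶜ, f i.castSucc + ∑ i ∈ J, f i.castSucc + f (Fin.last 9) := by
    intro f
    rw [Fin.sum_univ_castSucc, ← Finset.sum_compl_add_sum J]
  have hκn : κ = n - a := by
    rw [hκ, Fin.sum_univ_castSucc, ← hs1, ha, ← hs1, hn]
    ring
  have hb0 : ∑ i ∈ Jᶜ, m' i.castSucc - ∑ i ∈ J, m' i.castSucc = s1 - 9 * lam := by
    have h1 : ∑ i ∈ Jᶜ, m' i.castSucc = ∑ i ∈ Jᶜ, (m i.castSucc - lam) :=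
      Finset.sum_congr rfl fun i hi => hout i (Finset.mem_compl.1 hi)
    have h2 : ∑ i ∈ J, m' i.castSucc = - ∑ i ∈ J, (m i.castSucc - lam) := by
      rw [← Finset.sum_neg_distrib]
      exact Finset.sum_congr rfl fun i hi => by rw [hin i hi, neg_sub]
    rw [h1, h2, sub_neg_eq_add, Finset.sum_compl_add_sum J, Finset.sum_sub_distrib, ← hs1]
    simp
  have hsq : ∑ i ∈ Jᶜ, m' i.castSucc ^ 2 + ∑ i ∈ J, m' i.castSucc ^ 2 =
      s2 - 2 * lam * s1 + 9 * lam ^ 2 := by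
    rw [Finset.sum_compl_add_sum J]
    have h1 : ∀ i : Fin 9, m' i.castSucc ^ 2 =
        m i.castSucc ^ 2 - 2 * lam * m i.castSucc + lam ^ 2 := by
      intro i
      rw [hm', sq_abs]
      ring
    simp only [h1]
    rw [Finset.sum_add_distrib, Finset.sum_sub_distrib, ← Finset.mul_sum, ← hs1, ← hs2]
    simp
  have hN : ∑ i, m i ^ 2 = s2 + n ^ 2 := by
    rw [Fin.sum_univ_castSucc, ← hs2, ← hn]
  rw [← hn] at hτ hlam
  rw [← hs1] at ha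
  rw [hN] at h8
  have hq : (d - 3 * lam) ^ 2 - ∑ i, m' i ^ 2 = d ^ 2 - (s2 + n ^ 2) := by
    rw [hsplit, hsq, hm'9, sq_abs, hτ, hlam, ha]
    ring
  obtain ⟨hcase, hκτ⟩ := DataC_case m κ a ha0 hκa (by rw [← hn]; exact hκn) j hj τ
    (by rw [← hn]; exact hτ) hτa
  have hκ8 : κ ^ 2 ≤ 8 * ((d - 3 * lam) ^ 2 - ∑ i, m' i ^ 2) := by
    rw [hq]
    exact h8
  obtain ⟨YJ, hYJ⟩ : ∃ Y, Y = ∑ i ∈ J, m' i.castSucc := ⟨_, rfl⟩
  obtain ⟨SG, hSG⟩ : ∃ S, S = ∑ i ∈ Jᶜ, m' i.castSucc := ⟨_, rfl⟩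
  have hYJ0 : 0 ≤ YJ := by
    rw [hYJ]
    exact Finset.sum_nonneg fun i _ => hpos _
  have hSG0 : 0 ≤ SG := by
    rw [hSG]
    exact Finset.sum_nonneg fun i _ => hpos _
  rw [← hYJ, ← hSG] at hb0
  have hb : 3 * (d - 3 * lam) - SG = a - YJ := by
    rw [ha]
    linarith
  have hmain : 2 * YJ + |τ| ≤ a := by
    rcases Finset.eq_empty_or_nonempty J with h0 | h0
    · have h1 : YJ = 0 := by
        rw [hYJ, h0, Finset.sum_empty]
      rw [h1, mul_zero, zero_add]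
      exact hτa
    · have h1 := kineq (Jᶜ.map Fin.castSuccEmb) (J.map Fin.castSuccEmb)
        (by
          rw [Finset.card_map, Finset.card_map, Finset.card_compl, Fintype.card_fin]
          have := Finset.card_le_univ J
          rw [Fintype.card_fin] at this
          omega)
        (by rw [Finset.card_map]; exact h0.card_pos) (d - 3 * lam) m' a τ κ ha0 hτa
        (by rw [DataC_sumG, DataC_sumG, ← hYJ, ← hSG]; exact hb)
        (by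
          rw [DataC_sumG _ (fun i => m' i ^ 2), DataC_sumG _ (fun i => m' i ^ 2)]
          have h2 := hκ8
          rw [hsplit, hm'9, sq_abs] at h2
          linarith) hcase
      rw [DataC_sumG, ← hYJ] at h1
      exact h1
  have hd' : 0 ≤ d - 3 * lam := by
    have := abs_nonneg τ
    linarith
  have hsum' : ∑ i, m' i ≤ 3 * (d - 3 * lam) := by
    rw [hsplit, ← hYJ, ← hSG, hm'9]
    linarith
  have hq0 : 0 ≤ (d - 3 * lam) ^ 2 - ∑ i, m' i ^ 2 := by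
    have := sq_nonneg κ
    linarith
  have hsq' : ∑ i, m' i ^ 2 ≤ (d - 3 * lam) ^ 2 := by linarith
  refine ⟨hsum', hsq', fun a' ν hν => ?_⟩
  have hY : YJ + |τ| = ∑ i ∈ (Jᶜ.map Fin.castSuccEmb)ᶜ, m' i := by
    rw [DataC_compl, Finset.sum_insert, DataC_sumG, ← hYJ, hm'9, add_comm]
    intro h
    obtain ⟨y, _, hy⟩ := Finset.mem_map.1 h
    exact (Fin.castSucc_lt_last y).ne hy
  have hbY : (a - YJ + (YJ + |τ|)) ^ 2 ≤ 8 * ((d - 3 * lam) ^ 2 - ∑ i, m' i ^ 2) := by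
    refine le_trans ?_ hκ8
    have h1 : a - YJ + (YJ + |τ|) = a + |τ| := by ring
    rw [h1]
    have := abs_nonneg τ
    exact pow_le_pow_left₀ (by linarith) hκτ 2
  have hmemG : ∀ i ∈ Jᶜ.map Fin.castSuccEmb, ∃ i' : Fin 9, i' ∉ J ∧ i = i'.castSucc := by
    intro i hi
    obtain ⟨y, hy, rfl⟩ := Finset.mem_map.1 hi
    exact ⟨y, Finset.mem_compl.1 hy, rfl⟩
  have h3 : ∀ i ∈ Jᶜ.map Fin.castSuccEmb, ∀ j ∈ Jᶜ.map Fin.castSuccEmb,
      ∀ l ∈ Jᶜ.map Fin.castSuccEmb, i ≠ j → i ≠ l → j ≠ l →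
        m' i + m' j + m' l ≤ d - 3 * lam := by
    intro i hi j hj l hl hij hil hjl
    obtain ⟨i', hi', rfl⟩ := hmemG i hi
    obtain ⟨j', hj', rfl⟩ := hmemG j hj
    obtain ⟨l', hl', rfl⟩ := hmemG l hl
    rw [hout _ hi', hout _ hj', hout _ hl']
    have := hstd _ _ _ hij hil hjl
    linarith
  have h2 : ∀ i ∈ Jᶜ.map Fin.castSuccEmb, ∀ j ∈ Jᶜ.map Fin.castSuccEmb, i ≠ j →
      m' i + m' j ≤ d - 3 * lam := by
    intro i hi j hj hij
    by_cases hl : ∃ l ∈ Jᶜ.map Fin.castSuccEmb, i ≠ l ∧ j ≠ l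
    · obtain ⟨l, hl, hil, hjl⟩ := hl
      have h4 := h3 i hi j hj l hl hij hil hjl
      have h5 := hpos l
      linarith
    · push Not at hl
      have hG2 : Jᶜ.map Fin.castSuccEmb = {i, j} := by
        ext x
        rw [Finset.mem_insert, Finset.mem_singleton]
        constructor
        · intro hx
          by_cases h4 : i = x
          · exact Or.inl h4.symm
          · exact Or.inr (hl x hx h4).symm
        · rintro (rfl | rfl)
          · exact hi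
          · exact hj
      have hS : SG = m' i + m' j := by
        rw [hSG, ← DataC_sumG, hG2, Finset.sum_pair hij]
      have hSq : m' i ^ 2 + m' j ^ 2 ≤ ∑ i, m' i ^ 2 := by
        rw [← Finset.sum_pair (f := fun i => m' i ^ 2) hij]
        exact Finset.sum_le_sum_of_subset_of_nonneg (Finset.subset_univ _)
          fun _ _ _ => sq_nonneg _
      rw [← hS]
      refine pair_ineq (d - 3 * lam) SG hd' ?_
      rw [hb]
      have h4 : (a - YJ) ^ 2 ≤ (a - YJ + (YJ + |τ|)) ^ 2 := by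
        have := abs_nonneg τ
        exact pow_le_pow_left₀ (by linarith) (by linarith) 2
      have h5 : SG ^ 2 / 2 ≤ m' i ^ 2 + m' j ^ 2 := by
        rw [hS]
        nlinarith [sq_nonneg (m' i - m' j)]
      linarith
  have h1 : ∀ i ∈ Jᶜ.map Fin.castSuccEmb, m' i ≤ d - 3 * lam := by
    intro i _
    have h4 : m' i ^ 2 ≤ ∑ i, m' i ^ 2 :=
      Finset.single_le_sum (f := fun i => m' i ^ 2) (fun _ _ => sq_nonneg _) (Finset.mem_univ i)
    exact (abs_le_of_sq_le_sq' (h4.trans hsq') hd').2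
  exact neg1_nonneg (Jᶜ.map Fin.castSuccEmb)
    (by
      rw [Finset.card_map]
      have := Finset.card_le_univ Jᶜ
      rw [Fintype.card_fin] at this
      exact this)
    (d - 3 * lam) m' hd' hpos h1 h2 h3 (a - YJ) (YJ + |τ|)
    (by rw [DataC_sumG, ← hSG]; exact hb.symm) hY (by linarith) hbY a' ν hν

end ShghH
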