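import Mathlib

/-!
# Numerical (-1)-classes on the plane blown up at ten points
-/

namespace ShghH

/-- `L = a H - Σ ν_i E_i` with `L² = -1`, `K · L = -1`. -/
def Neg1 (a : ℕ) (ν : Fin 10 → ℕ) : Prop := ∑ i, ν i ^ 2 = a ^ 2 + 1 ∧ ∑ i, ν i + 1 = 3 * a

end ShghH
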