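import Pool.Agent.ShghH.NefH
import Pool.Agent.ShghV.Ram
import Pool.Agent.ShghZ.FinalZ

/-!
# SHGH on `X_10` for `8 (C - K)² ≥ (K · (C - K))²`
-/

namespace ShghH

open MvPolynomial ShghE ShghR ShghT ShghV

/-- Standard classes. `ShghV.ram_generic` with `s = 10`, `c = δ`: `N = (δ + 3; μ_i + 1)` is standard, `N² = D² - 2 K·D - 1`, `K · N = K · D + 1`, and nef by
`nefH` for `Fin 10` (the points of `IsNef` are the same; cast to natural numbers). `N² > 0`: `8 N² ≥ (K·D + 1)² > 0` by `hK`. -/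
theorem std_H {k : Type*} [Field k] (h2 : (2 : k) ≠ 0) (P : Fin 10 → Fin 2 → k)
    (hP : AlgebraicIndependent (⊥ : Subfield k) (fun ij : Fin 10 × Fin 2 => P ij.1 ij.2))
    (δ : ℕ) (μ : Fin 10 → ℕ) (hstd : ∀ i j l, i ≠ j → i ≠ l → j ≠ l → μ i + μ j + μ l ≤ δ)
    (hK : (∑ i, (μ i : ℤ)) - 3 * δ ≠ -1)
    (h8 : ((∑ i, (μ i : ℤ)) - 3 * δ + 1) ^ 2 ≤
      8 * ((δ : ℤ) ^ 2 - ∑ i, (μ i : ℤ) ^ 2 - 2 * ((∑ i, (μ i : ℤ)) - 3 * δ) - 1)) :
    (Module.finrank k (LS δ μ P) : ℤ) =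
      ((δ + 2).choose 2 : ℤ) - ∑ i, ((μ i + 1).choose 2 : ℤ) := by
  have hs1 : (∑ i, ((μ i : ℤ) + 1)) = (∑ i, (μ i : ℤ)) + 10 := by
    rw [Finset.sum_add_distrib]
    simp
  have hs2 : (∑ i, ((μ i : ℤ) + 1) ^ 2) = (∑ i, (μ i : ℤ) ^ 2) + 2 * (∑ i, (μ i : ℤ)) + 10 := by
    have h1 : ∀ i, ((μ i : ℤ) + 1) ^ 2 = (μ i : ℤ) ^ 2 + 2 * (μ i : ℤ) + 1 := fun i => by ring
    rw [Finset.sum_congr rfl fun i _ => h1 i, Finset.sum_add_distrib, Finset.sum_add_distrib,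
      ← Finset.mul_sum]
    simp
  have h8' : ((∑ i, ((μ i : ℤ) + 1)) - 3 * ((δ : ℤ) + 3)) ^ 2 ≤
      8 * (((δ : ℤ) + 3) ^ 2 - ∑ i, ((μ i : ℤ) + 1) ^ 2) := by
    rw [hs1, hs2]
    calc _ = ((∑ i, (μ i : ℤ)) - 3 * δ + 1) ^ 2 := by ring
      _ ≤ _ := h8
      _ = _ := by ring
  have hpos : 0 < ((∑ i, ((μ i : ℤ) + 1)) - 3 * ((δ : ℤ) + 3)) ^ 2 := by
    refine sq_pos_of_ne_zero ?_
    rw [hs1]
    intro h
    exact hK (by linarith)
  have hbig : ∑ i, (μ i + 1) ^ 2 < (δ + 3) ^ 2 := by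
    have h1 : (∑ i, ((μ i : ℤ) + 1) ^ 2) < ((δ : ℤ) + 3) ^ 2 := by linarith
    exact_mod_cast h1
  have h3 := ram_generic δ μ hbig (by
    intro L _ _ h2L Q hQ f δ' ν hf hdeg hmem
    have h8R : (∑ i, ((μ i : ℝ) + 1) - 3 * ((δ : ℝ) + 3)) ^ 2 ≤
        8 * (((δ : ℝ) + 3) ^ 2 - ∑ i, ((μ i : ℝ) + 1) ^ 2) := by exact_mod_cast h8'
    have hn := nefH h2L Q hQ ((δ : ℝ) + 3) (fun i => (μ i : ℝ) + 1) (fun i => by positivity)
      (fun i j l hij hil hjl => by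
        have h4 : ((μ i : ℝ)) + μ j + μ l ≤ δ := by exact_mod_cast hstd i j l hij hil hjl
        show (μ i : ℝ) + 1 + (μ j + 1) + (μ l + 1) ≤ (δ : ℝ) + 3
        linarith) h8R
    have h5 : ∑ i, ((μ i : ℝ) + 1) * (ν i : ℝ) ≤ ((δ : ℝ) + 3) * (δ' : ℝ) :=
      hn.2 f δ' ν hf hdeg hmem
    exact_mod_cast h5) h2 P hP
  have h4 : ((Module.finrank k (LS δ μ P) : ℤ)) + ∑ i, ((μ i + 1).choose 2 : ℤ) =
      ((δ + 2).choose 2 : ℤ) := by exact_mod_cast h3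
  linarith

/-- Prime divisors: `ShghT.prime_all` with the goal
`fun E χ h => E ≤ 4 ∨ (E + 1) ^ 2 ≤ 8 * (2 * χ - 3 - E) → (h : ℤ) = χ` (`D² = 2 χ - 2 + E` by `self_eq`, so `D² - 2 E - 1 = 2 χ - 3 - E`), `F = ⊥`; for the
standard classes `ShghT.final_Z` (`E ≤ 4`) and `std_H` (`hstd` for all triples from `hmax`, `hanti` and the first three:
every triple of different points has sum `≤ μ (c 0) + μ (c 1) + μ (c 2)`). Compare `ShghT.prime_Z`. -/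
theorem prime_H {k : Type*} [Field k] (h2 : (2 : k) ≠ 0) (P : Fin 10 → Fin 2 → k)
    (hP : AlgebraicIndependent (⊥ : Subfield k) (fun ij : Fin 10 × Fin 2 => P ij.1 ij.2))
    (δ : ℕ) (μ : Fin 10 → ℕ) (f : MvPolynomial (Fin 2) k) (hf : PrimeAt δ P μ f)
    (h8 : ((∑ i, (μ i : ℤ)) - 3 * δ + 1) ^ 2 ≤
      8 * ((δ : ℤ) ^ 2 - ∑ i, (μ i : ℤ) ^ 2 - 2 * ((∑ i, (μ i : ℤ)) - 3 * δ) - 1)) :
    (Module.finrank k (LS δ μ P) : ℤ) =
      ((δ + 2).choose 2 : ℤ) - ∑ i, ((μ i + 1).choose 2 : ℤ) := by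
  rw [self_eq] at h8
  refine prime_all (F := (⊥ : Subfield k)) (s := 10) (by norm_num)
    (fun E χ h => E ≤ 4 ∨ (E + 1) ^ 2 ≤ 8 * (2 * χ - 2 + E - 2 * E - 1) → (h : ℤ) = χ)
    (fun _ => by norm_num) ?_ δ P hP μ f hf (Or.inr h8)
  clear h8 hf f μ hP P δ
  intro D P hP μ c hc hanti hmax hstd f hf hE
  by_cases h4 : (∑ i, (μ i : ℤ)) - 3 * D ≤ 4
  · have hpos := hf.pos ⟨0, by omega⟩
    have h1 := final_Z P hP D μ c hc hanti hmax hstd (Or.inl h4)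
    have h3 : (1 : ℤ) ≤ max 0 (((D + 2).choose 2 : ℤ) - ∑ i, ((μ i + 1).choose 2 : ℤ)) := by
      rw [← h1]
      exact_mod_cast hpos
    rw [h1]
    rcases le_total 0 (((D + 2).choose 2 : ℤ) - ∑ i, ((μ i + 1).choose 2 : ℤ)) with h4 | h4
    · exact max_eq_right h4
    · rw [max_eq_left h4] at h3
      omega
  · have hE' := hE.resolve_left h4
    rw [← self_eq] at hE'
    have h01 : μ (c 1) ≤ μ (c 0) := hanti (by decide)
    have h12 : μ (c 2) ≤ μ (c 1) := hanti (by decide)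
    have key : ∀ x, x = c 0 ∨ x = c 1 ∨ μ x ≤ μ (c 2) := by
      intro x
      by_cases hx : x ∈ Set.range c
      · obtain ⟨a, rfl⟩ := hx
        by_cases ha0 : a = 0
        · exact Or.inl (by rw [ha0])
        by_cases ha1 : a = 1
        · exact Or.inr (Or.inl (by rw [ha1]))
        refine Or.inr (Or.inr (hanti ?_))
        have h5 : a.val ≠ 0 := fun h => ha0 (Fin.ext h)
        have h6 : a.val ≠ 1 := fun h => ha1 (Fin.ext h)
        show (2 : Fin 9) ≤ a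
        rw [Fin.le_def]
        show 2 ≤ a.val
        omega
      · exact Or.inr (Or.inr (hmax x hx 2))
    refine std_H h2 P hP D μ ?_ (by omega) hE'
    intro i j l hij hil hjl
    rcases key i with h1 | h1 | h1 <;> rcases key j with h3 | h3 | h3 <;>
      rcases key l with h5 | h5 | h5 <;>
      first
      | exact absurd (h1.trans h3.symm) hij
      | exact absurd (h1.trans h5.symm) hil
      | exact absurd (h3.trans h5.symm) hjl
      | ((try rw [h1]); (try rw [h3]); (try rw [h5]); omega)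

end ShghH
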