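import Mathlib

/-!
# Inequalities of Hodge index type for real vectors

`(d; m_i)`, `(a; ν_i)` (`i ∈ G`), `B² = d² - Σ m_i²`, `b = 3 d - Σ m_i`, `x = d a - Σ m_i ν_i`.
-/

namespace ShghH

variable {ι : Type*} (G : Finset ι)

/-- Reverse Cauchy-Schwarz inequality: if `0 ≤ d, a` and both squares are nonnegative then `x ≥ 0` and
`B² L² ≤ x²`. Proof: `Σ m ν ≤ |m||ν| ≤ d a`; and `(d a - |m||ν|)² - (d² - |m|²)(a² - |ν|²) = (d |ν| - a |m|)² ≥ 0`. -/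
theorem rcs (d a : ℝ) (m ν : ι → ℝ) (hd : 0 ≤ d) (ha : 0 ≤ a) (h1 : ∑ i ∈ G, m i ^ 2 ≤ d ^ 2)
    (h2 : ∑ i ∈ G, ν i ^ 2 ≤ a ^ 2) :
    0 ≤ d * a - ∑ i ∈ G, m i * ν i ∧
      (d ^ 2 - ∑ i ∈ G, m i ^ 2) * (a ^ 2 - ∑ i ∈ G, ν i ^ 2) ≤ (d * a - ∑ i ∈ G, m i * ν i) ^ 2 := by
  have hcs : (∑ i ∈ G, m i * ν i) ^ 2 ≤ (∑ i ∈ G, m i ^ 2) * ∑ i ∈ G, ν i ^ 2 :=
    Finset.sum_mul_sq_le_sq_mul_sq G m ν
  have hP : 0 ≤ ∑ i ∈ G, m i ^ 2 := Finset.sum_nonneg fun i _ => sq_nonneg _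
  have hQ : 0 ≤ ∑ i ∈ G, ν i ^ 2 := Finset.sum_nonneg fun i _ => sq_nonneg _
  generalize ∑ i ∈ G, m i * ν i = S at *
  obtain ⟨M, hM⟩ : ∃ M, M = Real.sqrt (∑ i ∈ G, m i ^ 2) := ⟨_, rfl⟩
  obtain ⟨N, hN⟩ : ∃ N, N = Real.sqrt (∑ i ∈ G, ν i ^ 2) := ⟨_, rfl⟩
  have hM2 : ∑ i ∈ G, m i ^ 2 = M ^ 2 := by rw [hM, Real.sq_sqrt hP]
  have hN2 : ∑ i ∈ G, ν i ^ 2 = N ^ 2 := by rw [hN, Real.sq_sqrt hQ]
  have hM0 : 0 ≤ M := by rw [hM]; exact Real.sqrt_nonneg _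
  have hN0 : 0 ≤ N := by rw [hN]; exact Real.sqrt_nonneg _
  rw [hM2] at h1 hcs ⊢
  rw [hN2] at h2 hcs ⊢
  have hMd : M ≤ d := (sq_le_sq₀ hM0 hd).1 h1
  have hNa : N ≤ a := (sq_le_sq₀ hN0 ha).1 h2
  have hS : S ≤ M * N := by
    refine (abs_le_of_sq_le_sq' ?_ (by positivity)).2
    rw [mul_pow]
    exact hcs
  have hMN : M * N ≤ d * a := mul_le_mul hMd hNa hN0 hd
  refine ⟨by linarith, ?_⟩
  have h3 : (d * a - M * N) ^ 2 ≤ (d * a - S) ^ 2 := by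
    apply pow_le_pow_left₀ (by linarith)
    linarith
  nlinarith [sq_nonneg (d * N - a * M)]

/-- A vector orthogonal to `(a; ν)`, `a > 0`, `Σ ν² ≤ a²`, has `R² ≤ 0`: `r a = Σ R_i ν_i ≤ |R| a`. -/
theorem orth_neg (r a : ℝ) (R ν : ι → ℝ) (ha : 0 < a) (h2 : ∑ i ∈ G, ν i ^ 2 ≤ a ^ 2)
    (h : r * a = ∑ i ∈ G, R i * ν i) : r ^ 2 ≤ ∑ i ∈ G, R i ^ 2 := by
  have hcs : (∑ i ∈ G, R i * ν i) ^ 2 ≤ (∑ i ∈ G, R i ^ 2) * ∑ i ∈ G, ν i ^ 2 :=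
    Finset.sum_mul_sq_le_sq_mul_sq G R ν
  have hP : 0 ≤ ∑ i ∈ G, R i ^ 2 := Finset.sum_nonneg fun i _ => sq_nonneg _
  have h3 : (∑ i ∈ G, R i ^ 2) * ∑ i ∈ G, ν i ^ 2 ≤ (∑ i ∈ G, R i ^ 2) * a ^ 2 :=
    mul_le_mul_of_nonneg_left h2 hP
  rw [← h, mul_pow] at hcs
  exact le_of_mul_le_mul_right (hcs.trans h3) (by positivity)

/-- The case of an isotropic class `(a; ν)` with `3 a - Σ ν = 2`: `4 B² ≤ 4 b x - (9 - |G|) x²`. Proof: `orth_neg` for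
`R = 2 B - x k`, `k = (3; 1, ..., 1)`: `R · L = 2 x - 2 x = 0` and `R² = 4 B² - 4 x b + (9 - |G|) x²`. -/
theorem iso_ineq (d a : ℝ) (m ν : ι → ℝ) (ha : 0 < a) (h2 : ∑ i ∈ G, ν i ^ 2 = a ^ 2)
    (h3 : 3 * a - ∑ i ∈ G, ν i = 2) (b x : ℝ) (hb : b = 3 * d - ∑ i ∈ G, m i)
    (hx : x = d * a - ∑ i ∈ G, m i * ν i) :
    4 * (d ^ 2 - ∑ i ∈ G, m i ^ 2) ≤ 4 * b * x - (9 - (G.card : ℝ)) * x ^ 2 := by
  have h4 : ∑ i ∈ G, (2 * m i - x) * ν i = 2 * ∑ i ∈ G, m i * ν i - x * ∑ i ∈ G, ν i := by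
    rw [Finset.mul_sum, Finset.mul_sum, ← Finset.sum_sub_distrib]
    exact Finset.sum_congr rfl fun i _ => by ring
  have h5 : ∑ i ∈ G, (2 * m i - x) ^ 2 = 4 * ∑ i ∈ G, m i ^ 2 - 4 * x * ∑ i ∈ G, m i +
      (G.card : ℝ) * x ^ 2 := by
    have e1 : ∀ i ∈ G, (2 * m i - x) ^ 2 = 4 * m i ^ 2 - 4 * x * m i + x ^ 2 := fun i _ => by ring
    rw [Finset.sum_congr rfl e1, Finset.sum_add_distrib, Finset.sum_sub_distrib, Finset.mul_sum,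
      Finset.mul_sum, Finset.sum_const, nsmul_eq_mul]
  have h6 := orth_neg G (2 * d - 3 * x) a (fun i => 2 * m i - x) ν ha h2.le (by
    rw [h4]
    linear_combination x * h3 * (-1) + 2 * hx * (-1))
  rw [h5] at h6
  rw [hb]
  nlinarith [h6]

/-- The case of a class with `L² = 1`, `3 a - Σ ν = 3` (a line): `b² + |G| B² + (9 - |G|) x² ≤ 6 b x`. Proof: `k = (3; 1, ..., 1)`,
`k² = 9 - |G| = : c`, `k · L = 3`, `L² = 1`. The vector `R = |G| B - (3 b - c x) L - (3 x - b) k` is orthogonal to `L` (and to `k`):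
`R · L = |G| x - (3 b - c x) - 3 (3 x - b) = (|G| + c - 9) x = 0`; `R² ≤ 0` (`orth_neg`) and
`R² = |G| (|G| B² - (3 b - c x) x - (3 x - b) b) = |G| (|G| B² - 6 b x + c x² + b²)`. If `G` is not empty divide by `|G| > 0`; if `G` is empty
then `a = 1`, `x = d`, `b = 3 d` and both sides are `18 d²`. -/
theorem line_ineq (d a : ℝ) (m ν : ι → ℝ) (ha : 0 < a) (h2 : ∑ i ∈ G, ν i ^ 2 = a ^ 2 - 1)
    (h3 : 3 * a - ∑ i ∈ G, ν i = 3) (b x : ℝ) (hb : b = 3 * d - ∑ i ∈ G, m i)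
    (hx : x = d * a - ∑ i ∈ G, m i * ν i) :
    b ^ 2 + (G.card : ℝ) * (d ^ 2 - ∑ i ∈ G, m i ^ 2) + (9 - (G.card : ℝ)) * x ^ 2 ≤ 6 * b * x := by
  rcases G.eq_empty_or_nonempty with hG | hG
  · subst hG
    simp only [Finset.sum_empty, sub_zero, Finset.card_empty, Nat.cast_zero] at *
    have ha1 : a = 1 := by linarith
    rw [hb, hx, ha1]
    apply le_of_eq
    ring
  have hg : (0 : ℝ) < G.card := by
    exact_mod_cast hG.card_pos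
  obtain ⟨g, hgd⟩ : ∃ g : ℝ, g = G.card := ⟨_, rfl⟩
  rw [← hgd] at hg ⊢
  obtain ⟨α, hα⟩ : ∃ α : ℝ, α = 3 * b - (9 - g) * x := ⟨_, rfl⟩
  obtain ⟨β, hβ⟩ : ∃ β : ℝ, β = 3 * x - b := ⟨_, rfl⟩
  have h4 : ∑ i ∈ G, (g * m i - α * ν i - β) * ν i =
      g * ∑ i ∈ G, m i * ν i - α * ∑ i ∈ G, ν i ^ 2 - β * ∑ i ∈ G, ν i := by
    rw [Finset.mul_sum, Finset.mul_sum, Finset.mul_sum, ← Finset.sum_sub_distrib,
      ← Finset.sum_sub_distrib]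
    exact Finset.sum_congr rfl fun i _ => by ring
  have h5 : ∑ i ∈ G, (g * m i - α * ν i - β) ^ 2 = g ^ 2 * ∑ i ∈ G, m i ^ 2 +
      α ^ 2 * ∑ i ∈ G, ν i ^ 2 - 2 * g * α * ∑ i ∈ G, m i * ν i - 2 * g * β * ∑ i ∈ G, m i +
      2 * α * β * ∑ i ∈ G, ν i + g * β ^ 2 := by
    have e1 : ∀ i ∈ G, (g * m i - α * ν i - β) ^ 2 = g ^ 2 * m i ^ 2 +
      α ^ 2 * ν i ^ 2 - 2 * g * α * (m i * ν i) - 2 * g * β * m i +
      2 * α * β * ν i + β ^ 2 := fun i _ => by ring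
    rw [Finset.sum_congr rfl e1, Finset.sum_add_distrib, Finset.sum_add_distrib,
      Finset.sum_sub_distrib, Finset.sum_sub_distrib, Finset.sum_add_distrib, Finset.mul_sum,
      Finset.mul_sum, Finset.mul_sum, Finset.mul_sum, Finset.mul_sum, Finset.sum_const,
      nsmul_eq_mul, ← hgd]
  have h6 := orth_neg G (g * d - α * a - β * 3) a (fun i => g * m i - α * ν i - β) ν ha
    (by rw [h2]; linarith) (by
      rw [h4, h2]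
      rw [hα, hβ]
      linear_combination (-g) * hx - (3 * x - b) * h3)
  rw [h5, h2] at h6
  have h7 : g * (b ^ 2 + g * (d ^ 2 - ∑ i ∈ G, m i ^ 2) + (9 - g) * x ^ 2 - 6 * b * x) ≤ 0 := by
    have e1 : ∑ i ∈ G, m i = 3 * d - b := by linarith
    have e2 : ∑ i ∈ G, m i * ν i = d * a - x := by linarith
    have e3 : ∑ i ∈ G, ν i = 3 * a - 3 := by linarith
    rw [e1, e2, e3, hα, hβ] at h6
    nlinarith [h6]
  have h8 := nonpos_of_mul_nonpos_right h7 hg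
  linarith

/-- Hodge inequality with the canonical class: `(9 - |G|) B² ≤ b²` if `|G| ≤ 9`. Proof: Cauchy-Schwarz
`(Σ m_i)² ≤ |G| Σ m_i²`; with `S = Σ m_i`, `b = 3 d - S`:
`b² - (9 - |G|) (d² - Σ m²) ≥ (3 d - S)² - (9 - |G|) d² + (9 - |G|) S² / |G| = |G| d² - 6 d S + 9 S² / |G| = (|G| d - 3 S)² / |G| ≥ 0`
(`G` empty: equality). -/
theorem canon_ineq (d : ℝ) (m : ι → ℝ) (hG : G.card ≤ 9) (b : ℝ) (hb : b = 3 * d - ∑ i ∈ G, m i) :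
    (9 - (G.card : ℝ)) * (d ^ 2 - ∑ i ∈ G, m i ^ 2) ≤ b ^ 2 := by
  rcases G.eq_empty_or_nonempty with hG0 | hG0
  · subst hG0
    simp only [Finset.sum_empty, sub_zero, Finset.card_empty, Nat.cast_zero] at *
    rw [hb]
    apply le_of_eq
    ring
  have hg : (0 : ℝ) < G.card := by
    exact_mod_cast hG0.card_pos
  have hg9 : (G.card : ℝ) ≤ 9 := by exact_mod_cast hG
  have hcs : (∑ i ∈ G, m i) ^ 2 ≤ (G.card : ℝ) * ∑ i ∈ G, m i ^ 2 := sq_sum_le_card_mul_sum_sq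
  generalize (G.card : ℝ) = g at *
  generalize ∑ i ∈ G, m i ^ 2 = P at *
  generalize ∑ i ∈ G, m i = S at *
  rw [hb]
  have h1 : 0 ≤ g * ((3 * d - S) ^ 2 - (9 - g) * (d ^ 2 - P)) := by
    have h2 : 0 ≤ (9 - g) * (g * P - S ^ 2) := mul_nonneg (by linarith) (by linarith)
    nlinarith [sq_nonneg (g * d - 3 * S), h2]
  have h3 := nonneg_of_mul_nonneg_right h1 hg
  linarith

end ShghH
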