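import Pool.Agent.ShghH.Defs
import Pool.Agent.ShghR.NefSpec
import Pool.Agent.ShghR.Curve2
import Pool.Agent.ShghR.Mult

/-!
# Classes which are nonnegative on (-1)-classes
-/

namespace ShghH

open MvPolynomial ShghE ShghR WeierstrassCurve WeierstrassCurve.Affine

section spec

variable {k : Type*} [Field k]

/-- irreducible curves through nine independent points of the cubic and a tenth point of it -/
theorem NegH_irr [IsAlgClosed k] [DecidableEq k] (h2 : (2 : k) ≠ 0) (CD : CurveData k)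
    (p : Fin 9 → (E0 k).Point) (B : ℕ) (hI : Indep p CD.E.T B) (Z : Fin 10 → Fin 2 → k)
    (hZ : ∀ i, (E0 k).Nonsingular (Z i 0) (Z i 1)) (hZinj : Function.Injective Z)
    (hp : ∀ i : Fin 9, p i = Point.some (Z i.castSucc 0) (Z i.castSucc 1) (hZ i.castSucc))
    (hz : (Point.some (Z (Fin.last 9) 0) (Z (Fin.last 9) 1) (hZ (Fin.last 9)) : (E0 k).Point) =
      CD.E.T + ((0 * (0 + 1) : ℕ) : ℤ) • ∑ i, p i)
    (d : ℝ) (m : Fin 10 → ℝ) (hd : 0 ≤ d) (hm : ∀ i, 0 ≤ m i) (hK : ∑ i, m i ≤ 3 * d)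
    (hsq : ∑ i, m i ^ 2 ≤ d ^ 2) (h1 : ∀ a ν, Neg1 a ν → ∑ i, m i * ν i ≤ d * a)
    (L : MvPolynomial (Fin 2) k) (hirr : Irreducible L)
    (hB : L.totalDegree ≤ B) (ν : Fin 10 → ℕ)
    (hν : ∀ i, L ∈ ptIdeal (Z i 0) (Z i 1) ^ ν i) :
    ∑ i, m i * ν i ≤ d * L.totalDegree := by
  by_cases hG : Geq k ∣ L
  · obtain ⟨u, hu⟩ := hG
    have hGu : ¬ IsUnit (Geq k) := by
      intro h
      have h1 := (MvPolynomial.isUnit_iff_totalDegree_of_isReduced.1 h).2
      have h3 := totalDegree_Geq_pow_mul (k := k) 1 (g := 1) one_ne_zero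
      simp at h3
      omega
    have huu : IsUnit u := (hirr.isUnit_or_isUnit hu).resolve_left hGu
    have hu0 : u.totalDegree = 0 := (MvPolynomial.isUnit_iff_totalDegree_of_isReduced.1 huu).2
    have hdeg : L.totalDegree = 3 := by
      have h3 := totalDegree_Geq_pow_mul (k := k) 1 (g := u) huu.ne_zero
      rw [pow_one, ← hu, hu0] at h3
      simpa using h3
    have h1 : ∀ i, ν i ≤ 1 := by
      intro i
      have h3 := colon (k := k) h2 (eq_of_nonsingular (hZ i)) 1 (ν i) (g := u)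
        (by rw [pow_one, ← hu]; exact hν i)
      have h4 := ShghE.le_totalDegree huu.ne_zero h3
      omega
    rw [hdeg]
    have h5 : ∑ i, m i * (ν i : ℝ) ≤ ∑ i, m i := by
      apply Finset.sum_le_sum
      intro i _
      have h6 : (ν i : ℝ) ≤ 1 := by exact_mod_cast h1 i
      exact mul_le_of_le_one_right (hm i) h6
    push_cast
    linarith
  · have e1 := special_kappa CD p 0 B hI Z hZ hZinj hp hz L hirr hG (by simpa using hB) ν hν
    have e3 := genus Z hZinj ν L hirr hν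
    have e4 : ∑ i, (ν i : ℤ) ^ 2 = ∑ i, (ν i : ℤ) * (ν i - 1) + ∑ i, (ν i : ℤ) := by
      rw [← Finset.sum_add_distrib]
      apply Finset.sum_congr rfl
      intro i _
      ring
    obtain ⟨b, hb⟩ : ∃ b : ℕ, b = L.totalDegree := ⟨_, rfl⟩
    rw [← hb] at e1 e3 ⊢
    have e5 : (∑ i, (ν i : ℤ)) + 1 ≤ 3 * b := by exact_mod_cast e1
    have e6 : ∑ i, (ν i : ℤ) ^ 2 ≤ (b : ℤ) ^ 2 - 3 * b + 2 + ∑ i, (ν i : ℤ) := by
      rw [e4]
      nlinarith
    by_cases hc : ∑ i, ν i ^ 2 ≤ b ^ 2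
    · -- Cauchy-Schwarz
      have hc' : ∑ i, (ν i : ℝ) ^ 2 ≤ (b : ℝ) ^ 2 := by exact_mod_cast hc
      have e7 : (∑ i, m i * (ν i : ℝ)) ^ 2 ≤ (d * b) ^ 2 := by
        refine (Finset.sum_mul_sq_le_sq_mul_sq Finset.univ m (fun i => (ν i : ℝ))).trans ?_
        rw [mul_pow]
        exact mul_le_mul hsq hc' (Finset.sum_nonneg fun i _ => sq_nonneg _) (sq_nonneg _)
      exact le_trans (le_abs_self _) (abs_le_of_sq_le_sq e7 (mul_nonneg hd (Nat.cast_nonneg b)))
    · push Not at hc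
      have hc' : (b : ℤ) ^ 2 + 1 ≤ ∑ i, (ν i : ℤ) ^ 2 := by exact_mod_cast hc
      refine h1 b ν ⟨?_, ?_⟩
      · have h8 : ∑ i, (ν i : ℤ) ^ 2 = (b : ℤ) ^ 2 + 1 := by linarith
        exact_mod_cast h8
      · have h8 : (∑ i, (ν i : ℤ)) + 1 = 3 * b := by linarith
        exact_mod_cast h8

theorem NegH_spec [IsAlgClosed k] [DecidableEq k] (h2 : (2 : k) ≠ 0) (CD : CurveData k)
    (p : Fin 9 → (E0 k).Point) (B : ℕ) (hI : Indep p CD.E.T B) (Z : Fin 10 → Fin 2 → k)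
    (hZ : ∀ i, (E0 k).Nonsingular (Z i 0) (Z i 1)) (hZinj : Function.Injective Z)
    (hp : ∀ i : Fin 9, p i = Point.some (Z i.castSucc 0) (Z i.castSucc 1) (hZ i.castSucc))
    (hz : (Point.some (Z (Fin.last 9) 0) (Z (Fin.last 9) 1) (hZ (Fin.last 9)) : (E0 k).Point) =
      CD.E.T + ((0 * (0 + 1) : ℕ) : ℤ) • ∑ i, p i)
    (d : ℝ) (m : Fin 10 → ℝ) (hd : 0 ≤ d) (hm : ∀ i, 0 ≤ m i) (hK : ∑ i, m i ≤ 3 * d)
    (hsq : ∑ i, m i ^ 2 ≤ d ^ 2) (h1 : ∀ a ν, Neg1 a ν → ∑ i, m i * ν i ≤ d * a)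
    (f : MvPolynomial (Fin 2) k) : f ≠ 0 → f.totalDegree ≤ B →
      ∀ μ : Fin 10 → ℕ, (∀ i, f ∈ ptIdeal (Z i 0) (Z i 1) ^ μ i) →
      ∑ i, m i * μ i ≤ d * f.totalDegree := by
  induction f using WfDvdMonoid.induction_on_irreducible with
  | zero => intro h; exact absurd rfl h
  | unit u hu =>
    intro hu1 _ μ hμ
    have hu0 : u.totalDegree = 0 := (MvPolynomial.isUnit_iff_totalDegree_of_isReduced.1 hu).2
    have h1 : ∀ i, μ i = 0 := by
      intro i
      have := ShghE.le_totalDegree hu1 (hμ i)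
      omega
    simp [h1, hu0]
  | mul a q ha hq ih =>
    intro _ hB μ hμ
    have hdeg : (q * a).totalDegree = q.totalDegree + a.totalDegree :=
      totalDegree_mul_of_isDomain hq.ne_zero ha
    have hsp := fun i => mem_split (Z i 0) (Z i 1) (hμ i)
    choose m1 m2 h4 h5 h6 using hsp
    rw [hdeg] at hB
    have hq1 := NegH_irr h2 CD p B hI Z hZ hZinj hp hz d m hd hm hK hsq h1 q hq
      (by omega) m1 h5
    have ha1 := ih ha (by omega) m2 h6
    rw [hdeg]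
    have h7 : ∑ i, m i * (μ i : ℝ) ≤ ∑ i, m i * (m1 i : ℝ) + ∑ i, m i * (m2 i : ℝ) := by
      rw [← Finset.sum_add_distrib]
      apply Finset.sum_le_sum
      intro i _
      have h8 : (μ i : ℝ) ≤ m1 i + m2 i := by exact_mod_cast h4 i
      rw [← mul_add]
      exact mul_le_mul_of_nonneg_left h8 (hm i)
    push_cast
    linarith

theorem NegH_some {a b a' b' : k} (h : (E0 k).Nonsingular a b)
    (h' : (E0 k).Nonsingular a' b') (ea : a = a') (eb : b = b') :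
    (Point.some a b h : (E0 k).Point) = Point.some a' b' h' := by
  subst ea eb
  rfl

theorem NegH_coords [DecidableEq k] {z : (E0 k).Point} (hz : z ≠ 0) :
    ∃ (a b : k) (h : (E0 k).Nonsingular a b), z = .some a b h := by
  rcases z with _ | ⟨a, b, h⟩
  · exact absurd rfl hz
  · exact ⟨a, b, h, rfl⟩

/-- the special position for `g = 0` -/
theorem NegH_points [IsAlgClosed k] [DecidableEq k] (h2 : (2 : k) ≠ 0) (B : ℕ) (hB : 1 ≤ B) :
    ∃ (CD : CurveData k) (p : Fin 9 → (E0 k).Point) (Z : Fin 10 → Fin 2 → k)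
      (hZ : ∀ i, (E0 k).Nonsingular (Z i 0) (Z i 1)),
      Indep p CD.E.T B ∧
      (∀ i : Fin 9, p i = Point.some (Z i.castSucc 0) (Z i.castSucc 1) (hZ i.castSucc)) ∧
      (Point.some (Z (Fin.last 9) 0) (Z (Fin.last 9) 1) (hZ (Fin.last 9)) : (E0 k).Point) =
        CD.E.T + ((0 * (0 + 1) : ℕ) : ℤ) • ∑ i, p i := by
  obtain ⟨CD⟩ := exists_curveData2 (k := k) h2
  obtain ⟨p, hI'⟩ := exists_indep (k := k) h2 CD.E.T CD.E.T_two B
  have hI : Indep p CD.E.T B := hI'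
  have hp0 := hI.ne_zero hB
  have hT0 : CD.E.T ≠ 0 := by
    rw [CD.T_eq]
    exact Point.some_ne_zero _
  choose a b hns hpab using fun i => NegH_coords (hp0 i)
  obtain ⟨za, zb, hzns, hzab⟩ := NegH_coords hT0
  obtain ⟨Z, hZdef⟩ : ∃ Z : Fin 10 → Fin 2 → k,
    Z = Fin.snoc (α := fun _ => Fin 2 → k) (fun i => ![a i, b i]) ![za, zb] := ⟨_, rfl⟩
  have hZ1 : ∀ i : Fin 9, Z i.castSucc = ![a i, b i] := by
    intro i
    rw [hZdef]
    exact Fin.snoc_castSucc _ _ _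
  have hZ2 : Z (Fin.last 9) = ![za, zb] := by
    rw [hZdef]
    exact Fin.snoc_last _ _
  have hZ : ∀ i, (E0 k).Nonsingular (Z i 0) (Z i 1) := by
    intro i
    refine Fin.lastCases ?_ (fun i => ?_) i
    · rw [hZ2]
      exact hzns
    · rw [hZ1]
      exact hns i
  refine ⟨CD.toCurveData, p, Z, hZ, hI, fun i => ?_, ?_⟩
  · rw [hpab i]
    exact NegH_some _ _ (by rw [hZ1]; rfl) (by rw [hZ1]; rfl)
  · rw [zero_mul, Nat.cast_zero, zero_smul, add_zero, hzab]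
    exact NegH_some _ _ (by rw [hZ2]; rfl) (by rw [hZ2]; rfl)

end spec

/-- A class `D = (d; m)`, `m_i ≥ 0`, `K · D ≤ 0`, `D² ≥ 0`, which is nonnegative on all numerical (-1)-classes is
nonnegative on all classes of positive expected dimension.

Proof (geometric, model: `ShghR.nef_spec` and `NefSpec_irr`). Let `(a; ν)` be of positive expected dimension. Work over
`k = AlgebraicClosure ℚ` with the special points of `ShghR` for `g = 0`: `exists_curveData2`, `exists_indep` (bound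
`B = a + 1`), nine independent points `p_i` and the tenth point `T = (0, 0)` (see the proofs of `coreR` and
`ShghU.ynef_base`). By `ShghR.exists_of_count` there is a curve `f ≠ 0` of degree `≤ a` with multiplicities `≥ ν_i` at these
points. It suffices to show `Σ m_i ν_i ≤ d deg L` for irreducible `L` (with any multiplicities `ν_i`), then factor `f` as in `nef_spec`
(`mem_split`). If `Geq ∣ L` use `Σ m_i ≤ 3 d` as in `NefSpec_irr`. Otherwise, `b = deg L`: `special_kappa` gives `Σ ν_i + 1 ≤ 3 b` and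
`genus` gives `Σ ν_i (ν_i - 1) ≤ (b - 1)(b - 2)`. So `Σ ν_i² ≤ b² - 3 b + 2 + Σ ν_i ≤ b² + 1`. If `Σ ν_i² ≤ b²` then Cauchy-Schwarz:
`(Σ m_i ν_i)² ≤ Σ m_i² Σ ν_i² ≤ d² b²`. If `Σ ν_i² = b² + 1` then `Σ ν_i + 1 = 3 b`, so `Neg1 b ν`. -/
theorem numNef_of_neg1 (d : ℝ) (m : Fin 10 → ℝ) (hm : ∀ i, 0 ≤ m i) (hK : ∑ i, m i ≤ 3 * d)
    (hsq : ∑ i, m i ^ 2 ≤ d ^ 2) (h1 : ∀ a ν, Neg1 a ν → ∑ i, m i * ν i ≤ d * a) : NumNef d m := by
  classical
  intro a ν hcount
  have h2 : (2 : AlgebraicClosure ℚ) ≠ 0 := two_ne_zero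
  have hd : 0 ≤ d := by
    have : 0 ≤ ∑ i, m i := Finset.sum_nonneg fun i _ => hm i
    linarith
  obtain ⟨CD, p, Z, hZ, hI, hp, hz⟩ :=
    NegH_points (k := AlgebraicClosure ℚ) h2 (a + 1) (by omega)
  have hZinj := special_inj CD p 0 (a + 1) hI (by omega) Z hZ hp hz
  obtain ⟨f, hf, hdeg, hν⟩ := exists_of_count Z ν a hcount
  have h3 := NegH_spec h2 CD p (a + 1) hI Z hZ hZinj hp hz d m hd hm hK hsq h1 f hf
    (by omega) ν hν
  refine h3.trans ?_
  have h4 : (f.totalDegree : ℝ) ≤ a := by exact_mod_cast hdeg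
  exact mul_le_mul_of_nonneg_left h4 hd

end ShghH
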