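import Pool.Agent.ShghH.DataB
import Pool.Agent.ShghH.DataC
import Pool.Agent.ShghH.NegH
import Pool.Agent.ShghM.MainM

/-!
# Standard classes on `X_10` with `8 N² ≥ (K · N)²` are nef
-/

namespace ShghH

open MvPolynomial ShghE ShghR ShghM

variable {k : Type*} [Field k]

theorem NefH_nine (m : Fin 10 → ℝ) (d : ℝ)
    (hstd : ∀ i j l, i ≠ j → i ≠ l → j ≠ l → m i + m j + m l ≤ d) :
    ∑ i : Fin 9, m i.castSucc ≤ 3 * d := by
  have h1 := hstd 0 1 2 (by decide) (by decide) (by decide)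
  have h2 := hstd 3 4 5 (by decide) (by decide) (by decide)
  have h3 := hstd 6 7 8 (by decide) (by decide) (by decide)
  have h4 : ∑ i : Fin 9, m i.castSucc =
      m 0 + m 1 + m 2 + m 3 + m 4 + m 5 + m 6 + m 7 + m 8 := by
    rw [Fin.sum_univ_castSucc, Fin.sum_univ_eight]
    rfl
  rw [h4]
  linarith

theorem NefH_cs (m : Fin 10 → ℝ) :
    (∑ i : Fin 9, m i.castSucc) ^ 2 ≤ 9 * ∑ i : Fin 9, m i.castSucc ^ 2 := by
  have h1 := sq_sum_le_card_mul_sum_sq (s := (Finset.univ : Finset (Fin 9)))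
    (f := fun i : Fin 9 => m i.castSucc)
  simpa using h1

/-- The case of a class with the smallest multiplicity at the last point and `K · N > 0`. `a = 3 d - Σ_{i<9} m_i ≥ 0` (sum of three triples), `κ = m_9 - a`.
`a > 0`: if `a = 0` then `Σ_{i<9} m_i = 3 d`, `Σ_{i<9} m_i² ≥ d²`, so `N² ≤ - m_9² = - κ² < 0`, a contradiction.
Case `κ ≤ a`: `data_one`, `numNef_of_neg1` for `(d - 6 κ; m_i - 2 κ)`, and `unfoldingM` with `J = ∅`, `j = -1`: `e = a` (`3 (d - 6 κ) - Σ_{i<9} (m_i - 2 κ) = a`),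
`n' = m_9 - 2 κ = a - κ`, `lam = 2 (a - n') = 2 κ`, `|n' - 2 a| = a + κ = m_9`.
Case `κ > a`: `n = m_9 = a + κ`; `j = ⌊(n + a) / (2 a)⌋₊`, so `2 j a ≤ n + a < 2 (j + 1) a`, `|τ| ≤ a`, `j ≥ 1`; `data_two`, `numNef_of_neg1` and `unfoldingM` for `J` and the integer `± j`, `+` if
`τ ≥ 0` and `-` if `τ < 0` (`|τ| + 2 (± j) a = ± n`, `lam = 2 (± j)(± j a + |τ|) = 2 j (j a + τ) = 2 j (n - j a)`). -/
theorem nefH_last [IsAlgClosed k] (h2 : (2 : k) ≠ 0) (P : Fin 10 → Fin 2 → k)
    (hP : AlgebraicIndependent (⊥ : Subfield k) (fun ij : Fin 10 × Fin 2 => P ij.1 ij.2))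
    (d : ℝ) (m : Fin 10 → ℝ) (hm : ∀ i, 0 ≤ m i)
    (hstd : ∀ i j l, i ≠ j → i ≠ l → j ≠ l → m i + m j + m l ≤ d)
    (hlast : ∀ i, m (Fin.last 9) ≤ m i) (hκ0 : 3 * d < ∑ i, m i)
    (h8 : (∑ i, m i - 3 * d) ^ 2 ≤ 8 * (d ^ 2 - ∑ i, m i ^ 2)) : IsNef P d m := by
  classical
  obtain ⟨κ, hκ⟩ : ∃ κ, κ = ∑ i, m i - 3 * d := ⟨_, rfl⟩
  obtain ⟨a, ha⟩ : ∃ a, a = 3 * d - ∑ i : Fin 9, m i.castSucc := ⟨_, rfl⟩
  rw [← hκ] at h8
  have hκp : 0 < κ := by
    rw [hκ]
    linarith
  have hsum10 := Fin.sum_univ_castSucc m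
  have hn : m (Fin.last 9) = a + κ := by
    rw [hκ, ha, hsum10]
    ring
  have ha0 : 0 < a := by
    have h1 := NefH_nine m d hstd
    rcases lt_or_eq_of_le (show 0 ≤ a by rw [ha]; linarith) with h | h
    · exact h
    · exfalso
      have h3 : ∑ i : Fin 9, m i.castSucc = 3 * d := by
        rw [← h] at ha
        linarith
      have h4 := NefH_cs m
      rw [h3] at h4
      rw [Fin.sum_univ_castSucc, hn, ← h] at h8
      nlinarith [sq_pos_of_pos hκp]
  rcases le_or_gt κ a with hκa | hκa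
  · obtain ⟨k1, k2, k3, k4⟩ := data_one d m hm hstd hlast κ a hκ hκp ha hκa h8
    have hN : NumNef (d - 6 * κ) (fun i => m i - 2 * κ) :=
      numNef_of_neg1 (d - 6 * κ) (fun i => m i - 2 * κ) k1 k2 k3 k4
    have h5 : a = 3 * (d - 6 * κ) - ∑ i : Fin 9, sgnm ∅ (fun i => m i - 2 * κ) i := by
      simp only [sgnm, Finset.notMem_empty, if_false, Finset.sum_sub_distrib, Finset.sum_const,
        Finset.card_univ, Fintype.card_fin, nsmul_eq_mul]
      rw [ha]
      push_cast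
      ring
    have h6 := unfoldingM h2 P hP (d - 6 * κ) (fun i => m i - 2 * κ) k1 k2 hN ∅ (-1)
      (Or.inl rfl) a (2 * κ) h5 (by
        simp only [Int.cast_neg, Int.cast_one]
        rw [hn]
        ring) m (fun i => by
        simp only [sgnm, Finset.notMem_empty, if_false]
        ring) (by
        simp only [Int.cast_neg, Int.cast_one]
        have h7 : m (Fin.last 9) - 2 * κ + 2 * -1 * a = -(a + κ) := by
          rw [hn]
          ring
        rw [h7, abs_neg, abs_of_pos (by linarith), hn])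
    have h7 : d - 6 * κ + 3 * (2 * κ) = d := by ring
    rwa [h7] at h6
  · -- second case
    have h2a : 0 < 2 * a := by linarith
    have hx0 : 0 ≤ (m (Fin.last 9) + a) / (2 * a) := by
      apply div_nonneg _ h2a.le
      linarith [hm (Fin.last 9)]
    obtain ⟨j, hj⟩ : ∃ j, j = ⌊(m (Fin.last 9) + a) / (2 * a)⌋₊ := ⟨_, rfl⟩
    have hj1 : (j : ℝ) * (2 * a) ≤ m (Fin.last 9) + a := by
      have h1 := Nat.floor_le hx0
      rw [← hj] at h1
      exact (le_div_iff₀ h2a).1 h1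
    have hj2 : m (Fin.last 9) + a < ((j : ℝ) + 1) * (2 * a) := by
      have h1 := Nat.lt_floor_add_one ((m (Fin.last 9) + a) / (2 * a))
      rw [← hj] at h1
      exact (div_lt_iff₀ h2a).1 h1
    have hj3 : 1 ≤ j := by
      rw [hj]
      apply Nat.le_floor
      rw [Nat.cast_one, one_le_div h2a]
      linarith
    obtain ⟨τ, hτ⟩ : ∃ τ, τ = m (Fin.last 9) - 2 * j * a := ⟨_, rfl⟩
    have hτa : |τ| ≤ a := by
      rw [abs_le]
      constructor
      · rw [hτ]
        linarith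
      · rw [hτ]
        linarith
    obtain ⟨lam, hlam⟩ : ∃ lam, lam = 2 * j * (m (Fin.last 9) - j * a) := ⟨_, rfl⟩
    let J : Finset (Fin 9) := Finset.univ.filter fun i => m i.castSucc < lam
    have hJ : ∀ i, i ∈ J ↔ m i.castSucc < lam := fun i => by simp [J]
    let m' : Fin 10 → ℝ := Fin.snoc (α := fun _ => ℝ) (fun i : Fin 9 => |m i.castSucc - lam|) |τ|
    have hm'1 : ∀ i : Fin 9, m' i.castSucc = |m i.castSucc - lam| := fun i => by
      simp [m']
    have hm'9 : m' (Fin.last 9) = |τ| := Fin.snoc_last (α := fun _ => ℝ) _ _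
    have hm'0 : ∀ i, 0 ≤ m' i := by
      intro i
      refine Fin.lastCases ?_ (fun i => ?_) i
      · rw [hm'9]
        exact abs_nonneg _
      · rw [hm'1]
        exact abs_nonneg _
    obtain ⟨k1, k2, k3, k4⟩ := data_two d m hm hstd κ a hκ ha ha0 hκa h8 j hj3 τ lam hτ hτa hlam
      J hJ m' hm'1 hm'9
    have hN : NumNef (d - 3 * lam) m' := numNef_of_neg1 (d - 3 * lam) m' hm'0 k2 k3 k4
    have h5 : a = 3 * (d - 3 * lam) - ∑ i : Fin 9, sgnm J m' i := by
      rw [Finset.sum_congr rfl fun i _ => k1 i, Finset.sum_sub_distrib, Finset.sum_const,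
        Finset.card_univ, Fintype.card_fin, nsmul_eq_mul, ha]
      push_cast
      ring
    -- the sign
    obtain ⟨σ, hσ1, hσ2, hσ0⟩ : ∃ σ : ℤ, (σ : ℝ) * σ = 1 ∧ (σ : ℝ) * |τ| = τ ∧ σ ≠ 0 := by
      rcases le_or_gt 0 τ with h | h
      · exact ⟨1, by norm_num, by rw [abs_of_nonneg h]; push_cast; ring, one_ne_zero⟩
      · exact ⟨-1, by norm_num, by rw [abs_of_neg h]; push_cast; ring, by norm_num⟩
    have hσj : σ * (j : ℤ) ≠ 0 := mul_ne_zero hσ0 (by exact_mod_cast (by omega : j ≠ 0))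
    have h6 := unfoldingM h2 P hP (d - 3 * lam) m' hm'0 k2 hN J (σ * (j : ℤ)) (Or.inr hσj) a lam h5
      (by
        rw [hm'9, Int.cast_mul, Int.cast_natCast]
        have e1 : 2 * ((σ : ℝ) * j) * ((σ : ℝ) * j * a + |τ|) =
            2 * j * ((σ * σ) * j * a + σ * |τ|) := by ring
        rw [e1, hσ1, hσ2, hlam, hτ]
        ring) m (fun i => by
        rw [k1]
        ring) (by
        rw [hm'9, Int.cast_mul, Int.cast_natCast]
        have e1 : |τ| + 2 * ((σ : ℝ) * j) * a = σ * (τ + 2 * j * a) := by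
          have e2 : |τ| = σ * τ := by
            have e3 : (σ : ℝ) * ((σ : ℝ) * |τ|) = σ * τ := by rw [hσ2]
            rw [← mul_assoc, hσ1, one_mul] at e3
            exact e3
          rw [e2]
          ring
        have e4 : |(σ : ℝ)| = 1 := by
          have e5 : |(σ : ℝ)| * |(σ : ℝ)| = 1 := by rw [← abs_mul, hσ1, abs_one]
          have e6 := abs_nonneg (σ : ℝ)
          nlinarith
        have e5 : τ + 2 * j * a = m (Fin.last 9) := by
          rw [hτ]
          ring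
        rw [e1, e5, abs_mul, e4, one_mul, abs_of_nonneg (hm _)])
    have h7 : d - 3 * lam + 3 * lam = d := by ring
    rwa [h7] at h6

theorem NefH_third (i j : Fin 10) : ∃ l, i ≠ l ∧ j ≠ l := by
  by_contra h
  push Not at h
  have h1 : (Finset.univ : Finset (Fin 10)) ⊆ {i, j} := by
    intro l _
    by_cases hl : i = l
    · simp [hl]
    · simp [h l hl]
  have h2 := Finset.card_le_card h1
  have h3 : ({i, j} : Finset (Fin 10)).card ≤ 2 := Finset.card_le_two
  rw [Finset.card_univ, Fintype.card_fin] at h2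
  omega

theorem NefH_fourth (i j i₀ : Fin 10) : ∃ l, i ≠ l ∧ j ≠ l ∧ i₀ ≠ l := by
  by_contra h
  push Not at h
  have h1 : (Finset.univ : Finset (Fin 10)) ⊆ {i, j, i₀} := by
    intro l _
    by_cases hl : i = l
    · simp [hl]
    · by_cases hl2 : j = l
      · simp [hl2]
      · simp [h l hl hl2]
  have h2 := Finset.card_le_card h1
  have h3 : ({i, j, i₀} : Finset (Fin 10)).card ≤ 3 := Finset.card_le_three
  rw [Finset.card_univ, Fintype.card_fin] at h2
  omega

/-- the nonnegativity on (-1)-classes if `K · N ≤ 0` -/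
theorem NefH_neg1 (d : ℝ) (m : Fin 10 → ℝ)
    (hstd : ∀ i j l, i ≠ j → i ≠ l → j ≠ l → m i + m j + m l ≤ d) (i₀ : Fin 10)
    (hi₀ : ∀ i, m i₀ ≤ m i) (hn0 : 0 ≤ m i₀) (a : ℕ) (ν : Fin 10 → ℕ) (hν : Neg1 a ν) :
    ∑ i, m i * ν i ≤ d * a := by
  obtain ⟨h1, h3⟩ := hν
  have ha : 1 ≤ a := by omega
  have hνa : ∀ i, ν i ≤ a := by
    intro i
    have h4 : ν i ^ 2 ≤ a ^ 2 + 1 := by
      rw [← h1]
      exact Finset.single_le_sum (f := fun i => ν i ^ 2) (fun i _ => Nat.zero_le _)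
        (Finset.mem_univ i)
    by_contra h5
    push Not at h5
    nlinarith
  have hs : ∑ i, (ν i : ℝ) + 1 = 3 * a := by exact_mod_cast h3
  have h4 : ∑ i ∈ Finset.univ.erase i₀, (ν i : ℝ) + ν i₀ = 3 * a - 1 := by
    rw [Finset.sum_erase_add _ _ (Finset.mem_univ i₀)]
    linarith
  have h5 := std_nonneg (Finset.univ.erase i₀) (d - 3 * m i₀) a (fun i => m i - m i₀)
    (fun i => (ν i : ℝ)) (by
      obtain ⟨j, hj, -⟩ := NefH_third i₀ i₀
      obtain ⟨l, hl, hl'⟩ := NefH_third i₀ j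
      have h6 := hstd i₀ j l hj hl hl'
      linarith [hi₀ j, hi₀ l]) (Nat.cast_nonneg _) (fun i _ => by linarith [hi₀ i])
    (fun i hi => by
      have hi' := Finset.ne_of_mem_erase hi
      obtain ⟨l, hl, hl'⟩ := NefH_third i i₀
      have h6 := hstd i i₀ l hi' hl hl'
      linarith [hi₀ l]) (fun i hi j hj hij => by
      have h6 := hstd i j i₀ hij (Finset.ne_of_mem_erase hi) (Finset.ne_of_mem_erase hj)
      linarith) (fun i _ j _ l _ hij hil hjl => by
      have h6 := hstd i j l hij hil hjl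
      linarith) (fun i _ => Nat.cast_nonneg _) (fun i _ => by exact_mod_cast hνa i) (by
      have h6 : (0 : ℝ) ≤ ν i₀ := Nat.cast_nonneg _
      linarith)
  have h6 : ∑ i ∈ Finset.univ.erase i₀, (m i - m i₀) * (ν i : ℝ) =
      ∑ i, m i * ν i - m i₀ * (∑ i, (ν i : ℝ)) := by
    rw [Finset.mul_sum, ← Finset.sum_sub_distrib,
      ← Finset.sum_erase_add Finset.univ _ (Finset.mem_univ i₀)]
    rw [sub_self, add_zero]
    exact Finset.sum_congr rfl fun i _ => by ring
  rw [h6] at h5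
  have h7 : ∑ i, (ν i : ℝ) = 3 * a - 1 := by linarith
  rw [h7] at h5
  nlinarith

/-- **Theorem.** Every standard class `N` with `8 N² ≥ (K · N)²` on the plane blown up at ten generic points is nef.
If `K · N ≤ 0`: `numNef_of_neg1` (`N² ≥ 0`; for a (-1)-class `L`: let the smallest multiplicity be `m_{i₀}`, `N = A - m_{i₀} K`, `A` standard on the
other nine points, `N · L = A · L + m_{i₀} ≥ 0` by `std_nonneg`) and `ShghR.unfold_zero`. If `K · N > 0`: move the point with the smallest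
multiplicity to the last place (swap; genericity and `IsNef` are invariant under permutations of the points) and apply `nefH_last`. -/
theorem nefH [IsAlgClosed k] (h2 : (2 : k) ≠ 0) (P : Fin 10 → Fin 2 → k)
    (hP : AlgebraicIndependent (⊥ : Subfield k) (fun ij : Fin 10 × Fin 2 => P ij.1 ij.2))
    (d : ℝ) (m : Fin 10 → ℝ) (hm : ∀ i, 0 ≤ m i)
    (hstd : ∀ i j l, i ≠ j → i ≠ l → j ≠ l → m i + m j + m l ≤ d)
    (h8 : (∑ i, m i - 3 * d) ^ 2 ≤ 8 * (d ^ 2 - ∑ i, m i ^ 2)) : IsNef P d m := by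
  classical
  obtain ⟨i₀, -, hi₀'⟩ := Finset.exists_min_image (Finset.univ : Finset (Fin 10)) m
    Finset.univ_nonempty
  have hi₀ : ∀ i, m i₀ ≤ m i := fun i => hi₀' i (Finset.mem_univ i)
  rcases le_or_gt (∑ i, m i) (3 * d) with hK | hK
  · refine unfold_zero h2 P hP d m hm hK (numNef_of_neg1 d m hm hK ?_ fun a ν hν =>
      NefH_neg1 d m hstd i₀ hi₀ (hm i₀) a ν hν)
    nlinarith [sq_nonneg (∑ i, m i - 3 * d)]
  · let s : Equiv.Perm (Fin 10) := Equiv.swap i₀ (Fin.last 9)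
    have hss : ∀ i, s (s i) = i := fun i => Equiv.swap_apply_self _ _ i
    have hsum : ∀ F : Fin 10 → ℝ, ∑ i, F (s i) = ∑ i, F i := fun F => Equiv.sum_comp s F
    have hP' : AlgebraicIndependent (⊥ : Subfield k)
        (fun ij : Fin 10 × Fin 2 => P (s ij.1) ij.2) := by
      have h3 := hP.comp (fun ij : Fin 10 × Fin 2 => (s ij.1, ij.2)) (by
        rintro ⟨i, j⟩ ⟨i', j'⟩ h
        simp only [Prod.mk.injEq] at h
        rw [s.injective h.1, h.2])
      exact h3
    have h4 := nefH_last h2 (fun i => P (s i)) hP' d (fun i => m (s i)) (fun i => hm _)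
      (fun i j l hij hil hjl => hstd _ _ _ (s.injective.ne hij) (s.injective.ne hil)
        (s.injective.ne hjl)) (fun i => by
        have h5 : s (Fin.last 9) = i₀ := Equiv.swap_apply_right _ _
        rw [h5]
        exact hi₀ _) (by rw [hsum]; exact hK) (by
        rw [hsum, hsum (fun i => m i ^ 2)]
        exact h8)
    refine ⟨hm, fun f δ μ hf hδ hμ => ?_⟩
    have h5 := h4.2 f δ (fun i => μ (s i)) hf hδ (fun i => hμ (s i))
    rw [hsum (fun i => m i * (μ i : ℝ))] at h5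
    exact h5

end ShghH
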