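import Pool.Agent.ShghH.Defs
import Pool.Agent.ShghH.HodgeA
import Pool.Agent.ShghH.StdH

/-!
# Nonnegativity on (-1)-classes
-/

namespace ShghH

/-- Cauchy-Schwarz for the multiplicities outside of `G`. -/
theorem PosH_cs (H : Finset (Fin 10)) (m ν : Fin 10 → ℝ) :
    (∑ i ∈ H, m i * ν i) ^ 2 ≤ (∑ i ∈ H, m i ^ 2) * ∑ i ∈ H, ν i ^ 2 :=
  Finset.sum_mul_sq_le_sq_mul_sq H m ν

theorem PosH_sq {x z : ℝ} (h : z ^ 2 ≤ x ^ 2) (hx : 0 ≤ x) : z ≤ x :=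
  le_trans (le_abs_self z) (abs_le_of_sq_le_sq h hx)

theorem PosH_sumsq (H : Finset (Fin 10)) (m : Fin 10 → ℝ) (hm : ∀ i, 0 ≤ m i) :
    ∑ i ∈ H, m i ^ 2 ≤ (∑ i ∈ H, m i) ^ 2 := by
  rw [pow_two, Finset.sum_mul]
  refine Finset.sum_le_sum fun i hi => ?_
  rw [pow_two]
  exact mul_le_mul_of_nonneg_left (Finset.single_le_sum (fun j _ => hm j) hi) (hm i)

/-- Let `D = (d; m)` be a class of ten points, `G` a subset of the points such that `(d; m_i, i ∈ G)` is standard,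
`y_i = m_i ≥ 0` the other multiplicities, `Y = Σ y_i`, `b = 3 d - Σ_G m_i`, `Y ≤ b`, and `(b + Y)² ≤ 8 D²`. Then `D` is
nonnegative on all (-1)-classes `(a; ν)`.

Proof. `a ≥ 1` (`Σ ν + 1 = 3 a`), `ν_i ≤ a` (`ν_i² ≤ a² + 1 < (a + 1)²`). Let `B² = d² - Σ_G m² = D² + Σ y²`,
`S = Σ_{i ∉ G} ν_i²`, `x = d a - Σ_G m_i ν_i`. To show: `Σ_{i ∉ G} y_i ν_i ≤ x`. `Σ_G ν² = a² + 1 - S`, `Σ_G ν = 3 a - 1 - Σ_{i ∉ G} ν_i`.
`S = 0`: `std_nonneg`.
`S = 1`: one `ν_i = 1` (`i ∉ G`), the others `0`; `iso_ineq` (`Σ_G ν² = a²`, `3 a - Σ_G ν = 2`) and `|G| ≤ 9` (`G` is not everything): `B² ≤ b x`.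
`B² ≥ y_i² + (b + y_i)² / 8` and `8 (y_i² + (b + y_i)² / 8 - b y_i) = (3 y_i - b)² ≥ 0`, so `b y_i ≤ B² ≤ b x`; if `b > 0` divide; if
`b = 0` then `Y = 0`, `y_i = 0`, and `x ≥ 0` by `rcs`.
`S = 2`: two `ν_i = ν_j = 1`; `line_ineq` (`Σ_G ν² = a² - 1`, `3 a - Σ_G ν = 3`): `b² + |G| B² + (9 - |G|) x² ≤ 6 b x`, and `x² ≥ B²` by `rcs`
(`L² = 1`), so `b² + 9 B² ≤ 6 b x`. With `z = y_i + y_j ≤ Y`: `B² ≥ y_i² + y_j² + (b + z)² / 8 ≥ z² / 2 + (b + z)² / 8`, and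
`8 (b² + 9 (z² / 2 + (b + z)² / 8) - 6 b z) = 17 b² - 30 b z + 45 z² ≥ 0` (discriminant `900 - 3060 < 0`), so `6 b z ≤ 6 b x`; the case
`b = 0` as before.
`S ≥ 3`: `D² ≥ (b + Y)² / 8 ≥ Y² / 2 ≥ Σ y² / 2`, so `B² ≥ (3/2) Σ y²`. `rcs`: `x² ≥ B² (S - 1) ≥ (3/2) (S - 1) Σ y² ≥ S Σ y² ≥ (Σ y ν)²`
and `x ≥ 0`. -/
theorem neg1_nonneg (G : Finset (Fin 10)) (hG : G.card ≤ 9) (d : ℝ) (m : Fin 10 → ℝ) (hd : 0 ≤ d)
    (hm : ∀ i, 0 ≤ m i) (h1 : ∀ i ∈ G, m i ≤ d) (h2 : ∀ i ∈ G, ∀ j ∈ G, i ≠ j → m i + m j ≤ d)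
    (h3 : ∀ i ∈ G, ∀ j ∈ G, ∀ l ∈ G, i ≠ j → i ≠ l → j ≠ l → m i + m j + m l ≤ d)
    (b Y : ℝ) (hb : b = 3 * d - ∑ i ∈ G, m i) (hY : Y = ∑ i ∈ Gᶜ, m i) (hYb : Y ≤ b)
    (hq : (b + Y) ^ 2 ≤ 8 * (d ^ 2 - ∑ i, m i ^ 2)) (a : ℕ) (ν : Fin 10 → ℕ) (hν : Neg1 a ν) :
    ∑ i, m i * ν i ≤ d * a := by
  obtain ⟨hν1, hν2⟩ := hν
  have ha1 : 1 ≤ a := by omega
  have hνa : ∀ i, ν i ≤ a := by
    intro i
    by_contra hcon
    push Not at hcon
    have h4 : ν i ^ 2 ≤ ∑ i, ν i ^ 2 :=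
      Finset.single_le_sum (f := fun i => ν i ^ 2) (fun i _ => Nat.zero_le _) (Finset.mem_univ i)
    nlinarith
  -- the real numbers
  have hsm : ∑ i, m i * (ν i : ℝ) = ∑ i ∈ G, m i * (ν i : ℝ) + ∑ i ∈ Gᶜ, m i * (ν i : ℝ) :=
    (Finset.sum_add_sum_compl G _).symm
  have hsq : ∑ i, m i ^ 2 = ∑ i ∈ G, m i ^ 2 + ∑ i ∈ Gᶜ, m i ^ 2 :=
    (Finset.sum_add_sum_compl G _).symm
  have hνs : ∑ i, ν i ^ 2 = ∑ i ∈ G, ν i ^ 2 + ∑ i ∈ Gᶜ, ν i ^ 2 :=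
    (Finset.sum_add_sum_compl G _).symm
  have hνl : ∑ i, ν i = ∑ i ∈ G, ν i + ∑ i ∈ Gᶜ, ν i :=
    (Finset.sum_add_sum_compl G _).symm
  obtain ⟨S, hS⟩ : ∃ S : ℕ, S = ∑ i ∈ Gᶜ, ν i ^ 2 := ⟨_, rfl⟩
  obtain ⟨M2, hM2⟩ : ∃ M2 : ℝ, M2 = ∑ i ∈ G, m i ^ 2 := ⟨_, rfl⟩
  obtain ⟨y2, hy2⟩ : ∃ y2 : ℝ, y2 = ∑ i ∈ Gᶜ, m i ^ 2 := ⟨_, rfl⟩
  obtain ⟨z, hz⟩ : ∃ z : ℝ, z = ∑ i ∈ Gᶜ, m i * (ν i : ℝ) := ⟨_, rfl⟩
  obtain ⟨x, hx⟩ : ∃ x : ℝ, x = d * a - ∑ i ∈ G, m i * (ν i : ℝ) := ⟨_, rfl⟩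
  have hY0 : 0 ≤ Y := by
    rw [hY]
    exact Finset.sum_nonneg fun i _ => hm i
  have hb0 : 0 ≤ b := hY0.trans hYb
  have hy20 : 0 ≤ y2 := by
    rw [hy2]
    exact Finset.sum_nonneg fun i _ => sq_nonneg _
  have hz0 : 0 ≤ z := by
    rw [hz]
    exact Finset.sum_nonneg fun i _ => mul_nonneg (hm i) (Nat.cast_nonneg _)
  have hcs : z ^ 2 ≤ y2 * S := by
    have h4 := PosH_cs Gᶜ m (fun i => (ν i : ℝ))
    have h5 : (S : ℝ) = ∑ i ∈ Gᶜ, (ν i : ℝ) ^ 2 := by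
      rw [hS]
      push_cast
      rfl
    rw [hz, hy2, h5]
    exact h4
  have hyY : y2 ≤ Y ^ 2 := by
    rw [hy2, hY]
    exact PosH_sumsq _ m hm
  rw [hsq, ← hM2, ← hy2] at hq
  have hG2 : (∑ i ∈ G, (ν i : ℝ) ^ 2) = (a : ℝ) ^ 2 + 1 - S := by
    have h4 : (∑ i ∈ G, ν i ^ 2) + S = a ^ 2 + 1 := by rw [hS, ← hνs, hν1]
    have h5 : (∑ i ∈ G, (ν i : ℝ) ^ 2) + S = (a : ℝ) ^ 2 + 1 := by exact_mod_cast h4
    linarith
  have hgoal : z ≤ x → ∑ i, m i * (ν i : ℝ) ≤ d * a := by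
    intro h4
    rw [hsm, ← hz]
    rw [hx] at h4
    linarith
  apply hgoal
  have hMd : M2 ≤ d ^ 2 := by linarith [sq_nonneg (b + Y)]
  have ha0 : (0 : ℝ) < a := by exact_mod_cast ha1
  have hGc : (G.card : ℝ) ≤ 9 := by exact_mod_cast hG
  rcases Nat.eq_zero_or_pos S with hS0 | hSpos
  · -- `S = 0`
    have h4 : ∀ i ∈ Gᶜ, ν i = 0 := by
      intro i hi
      have h5 := (Finset.sum_eq_zero_iff.1 (hS.symm.trans hS0)) i hi
      exact pow_eq_zero_iff (two_ne_zero) |>.1 h5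
    have h5 : z = 0 := by
      rw [hz]
      exact Finset.sum_eq_zero fun i hi => by rw [h4 i hi, Nat.cast_zero, mul_zero]
    have h6 : ∑ i ∈ G, (ν i : ℝ) ≤ 3 * a := by
      have h7 : ∑ i ∈ G, ν i ≤ 3 * a := by omega
      exact_mod_cast h7
    have h7 := std_nonneg G d a m (fun i => (ν i : ℝ)) hd ha0.le (fun i _ => hm i) h1 h2 h3
      (fun i _ => Nat.cast_nonneg _) (fun i _ => by exact_mod_cast hνa i) h6
    rw [h5, hx]
    linarith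
  · -- `S > 0`: the reverse Cauchy-Schwarz inequality
    have hS1 : (1 : ℝ) ≤ S := by exact_mod_cast hSpos
    obtain ⟨hr1, hr2⟩ := rcs G d a m (fun i => (ν i : ℝ)) hd ha0.le (by rw [← hM2]; exact hMd)
      (by
        show ∑ i ∈ G, (ν i : ℝ) ^ 2 ≤ (a : ℝ) ^ 2
        rw [hG2]
        linarith)
    rw [← hx] at hr1 hr2
    have hr2' : (d ^ 2 - M2) * ((S : ℝ) - 1) ≤ x ^ 2 := by
      have h4 : (a : ℝ) ^ 2 - ∑ i ∈ G, (ν i : ℝ) ^ 2 = S - 1 := by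
        rw [hG2]
        ring
      have h5 : (d ^ 2 - ∑ i ∈ G, m i ^ 2) * ((a : ℝ) ^ 2 - ∑ i ∈ G, (ν i : ℝ) ^ 2) ≤ x ^ 2 := hr2
      rwa [h4, ← hM2] at h5
    by_cases hS3 : 3 ≤ S
    · have hS3' : (3 : ℝ) ≤ S := by exact_mod_cast hS3
      have h4 : (3 / 2) * y2 ≤ d ^ 2 - M2 := by
        have h6 : 4 * Y ^ 2 ≤ (b + Y) ^ 2 := by
          have h7 : 2 * Y ≤ b + Y := by linarith
          have h8 := pow_le_pow_left₀ (by linarith : 0 ≤ 2 * Y) h7 2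
          linarith [h8, (by ring : (2 * Y) ^ 2 = 4 * Y ^ 2)]
        linarith
      have h5 : y2 * S ≤ x ^ 2 := by
        have h6 : (3 / 2) * y2 * ((S : ℝ) - 1) ≤ (d ^ 2 - M2) * ((S : ℝ) - 1) :=
          mul_le_mul_of_nonneg_right h4 (by linarith)
        have h7 : 0 ≤ y2 * ((S : ℝ) - 3) := mul_nonneg hy20 (by linarith)
        have h8 : (3 / 2) * y2 * ((S : ℝ) - 1) - y2 * S = (1 / 2) * (y2 * ((S : ℝ) - 3)) := by
          ring
        linarith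
      exact PosH_sq (hcs.trans h5) hr1
    · -- `S = 1` or `S = 2`
      have hν1' : ∀ i ∈ Gᶜ, ν i ^ 2 = ν i := by
        intro i hi
        have h4 : ν i ^ 2 ≤ ∑ i ∈ Gᶜ, ν i ^ 2 :=
          Finset.single_le_sum (f := fun i => ν i ^ 2) (fun i _ => Nat.zero_le _) hi
        have h5 : ν i ≤ 1 := by
          by_contra hcon
          push Not at hcon
          have h6 : 2 ^ 2 ≤ ν i ^ 2 := Nat.pow_le_pow_left hcon 2
          omega
        interval_cases (ν i) <;> rfl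
      have hSl : ∑ i ∈ Gᶜ, ν i = S := by
        rw [hS]
        exact Finset.sum_congr rfl fun i hi => (hν1' i hi).symm
      have hGl : ∑ i ∈ G, (ν i : ℝ) = 3 * a - 1 - S := by
        have h4 : ∑ i ∈ G, ν i + S + 1 = 3 * a := by rw [← hSl, ← hνl, hν2]
        have h5 : ∑ i ∈ G, (ν i : ℝ) + S + 1 = 3 * a := by exact_mod_cast h4
        linarith
      have hzY : z ≤ Y := by
        rw [hz, hY]
        refine Finset.sum_le_sum fun i hi => ?_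
        have h5 : ν i ≤ 1 := by
          by_contra hcon
          push Not at hcon
          have h7 : ν i * ν i = ν i := by rw [← pow_two]; exact hν1' i hi
          have h8 : ν i * 2 ≤ ν i * ν i := Nat.mul_le_mul_left _ hcon
          omega
        have h6 : (ν i : ℝ) ≤ 1 := by exact_mod_cast h5
        exact mul_le_of_le_one_right (hm i) h6
      have hbz : (b + z) ^ 2 ≤ (b + Y) ^ 2 :=
        pow_le_pow_left₀ (by linarith) (by linarith) 2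
      rcases eq_or_lt_of_le hb0 with hb1 | hb1
      · -- `b = 0`
        have : z ≤ 0 := by linarith
        linarith
      · have hmain : b * z ≤ b * x := by
          by_cases hS' : S = 1
          · have hSr : (S : ℝ) = 1 := by exact_mod_cast hS'
            have h4 := iso_ineq G d a m (fun i => (ν i : ℝ)) ha0
              (by
                show ∑ i ∈ G, (ν i : ℝ) ^ 2 = (a : ℝ) ^ 2
                rw [hG2, hSr]
                ring)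
              (by
                show 3 * (a : ℝ) - ∑ i ∈ G, (ν i : ℝ) = 2
                rw [hGl, hSr]
                ring) b x hb hx
            rw [← hM2] at h4
            have h5 : 0 ≤ (9 - (G.card : ℝ)) * x ^ 2 :=
              mul_nonneg (by linarith) (sq_nonneg _)
            rw [hSr, mul_one] at hcs
            have h6 : (3 * z - b) ^ 2 = 8 * z ^ 2 + (b + z) ^ 2 - 8 * (b * z) := by ring
            have h7 := sq_nonneg (3 * z - b)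
            have h8 : 4 * b * x = 4 * (b * x) := by ring
            linarith
          · have hS'' : S = 2 := by omega
            have hSr : (S : ℝ) = 2 := by exact_mod_cast hS''
            have h4 := line_ineq G d a m (fun i => (ν i : ℝ)) ha0
              (by
                show ∑ i ∈ G, (ν i : ℝ) ^ 2 = (a : ℝ) ^ 2 - 1
                rw [hG2, hSr]
                ring)
              (by
                show 3 * (a : ℝ) - ∑ i ∈ G, (ν i : ℝ) = 3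
                rw [hGl, hSr]
                ring) b x hb hx
            rw [← hM2] at h4
            rw [hSr] at hr2' hcs
            have h5 : (9 - (G.card : ℝ)) * (d ^ 2 - M2) ≤ (9 - (G.card : ℝ)) * x ^ 2 :=
              mul_le_mul_of_nonneg_left (by linarith) (by linarith)
            have h6 : 9 * (d ^ 2 - M2) + b ^ 2 ≤ 6 * (b * x) := by
              have h8 : 6 * b * x = 6 * (b * x) := by ring
              have h9 : (G.card : ℝ) * (d ^ 2 - M2) + (9 - (G.card : ℝ)) * (d ^ 2 - M2) =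
                  9 * (d ^ 2 - M2) := by ring
              linarith
            have h7 : 9 * (4 * z ^ 2 + (b + z) ^ 2) + 8 * b ^ 2 - 48 * (b * z) =
                5 * (3 * z - b) ^ 2 + 12 * b ^ 2 := by ring
            have h8 := sq_nonneg (3 * z - b)
            have h9 := sq_nonneg b
            linarith
        exact le_of_mul_le_mul_left hmain hb1

end ShghH
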